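import Pool.Agent.H51.PM.Tri

/-!
[H51 PM DF]  THEOREM P4 (MP_8923e7_nt, FourMultiples): classes modulo 3.

`w = (0, w 1, w 2, w 3)` increasing.  A number `m` is bad if all six `2 (w j - w i) m` are unpopular.  `Ms w t`: all `m` are divisible by
`t` and either `3 ∣ t` or the `w i` miss a class modulo 3.  If the differences `z j - z i` are `(w j - w i) m`, `m ∈ A` (with `m` depending on
`i, j`), then the `z i` are in at most two classes modulo 3.
-/

namespace Pool.Agent.H51.PM

open Finset

/-- `3 ∣ t` or the `w i` miss a class modulo 3 -/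
def Ms (w : Fin 4 → ℕ) (t : ℕ) : Prop := 3 ∣ t ∨ ∃ r < 3, ∀ i, w i % 3 ≠ r

theorem cls3 (w : Fin 4 → ℕ) (hw : StrictMono w) (t : ℕ) (ht : Ms w t) (A : Finset ℕ)
    (hA : ∀ m ∈ A, t ∣ m) (z : Fin 4 → ℕ) (hz : ∀ i j, i < j → ∃ m ∈ A, z j = z i + (w j - w i) * m) :
    ((univ : Finset (Fin 4)).image fun i => z i % 3).card ≤ 2 := by
  have key : ∀ i j, w i % 3 = w j % 3 → z i % 3 = z j % 3 := by
    have k1 : ∀ i j, i < j → w i % 3 = w j % 3 → z i % 3 = z j % 3 := by
      intro i j hij h
      obtain ⟨m, -, hm⟩ := hz i j hij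
      have h1 : w i ≤ w j := hw.monotone hij.le
      have h2 : 3 ∣ w j - w i := (Nat.modEq_iff_dvd' h1).1 h
      obtain ⟨d, hd⟩ := h2
      rw [hm, hd, mul_assoc, Nat.add_mul_mod_self_left]
    intro i j h
    rcases lt_trichotomy i j with h1 | h1 | h1
    · exact k1 i j h1 h
    · rw [h1]
    · exact (k1 j i h1 h.symm).symm
  rcases ht with h3 | ⟨r, hr, hmiss⟩
  · have h1 : ((univ : Finset (Fin 4)).image fun i => z i % 3) ⊆ {z 0 % 3} := by
      intro x hx
      rw [mem_image] at hx
      obtain ⟨i, -, rfl⟩ := hx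
      rw [mem_singleton]
      rcases eq_or_ne i 0 with h | h
      · rw [h]
      · obtain ⟨m, hm, hm'⟩ := hz 0 i (Fin.pos_of_ne_zero h)
        obtain ⟨d, hd⟩ := h3.trans (hA m hm)
        rw [hm', hd, mul_left_comm, Nat.add_mul_mod_self_left]
    exact (card_le_card h1).trans (by simp)
  · classical
    let φ : ℕ → Fin 4 := fun c => if h : ∃ i, w i % 3 = c then h.choose else 0
    have hφ : ∀ i, w (φ (w i % 3)) % 3 = w i % 3 := by
      intro i
      have h : ∃ j, w j % 3 = w i % 3 := ⟨i, rfl⟩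
      simp only [φ, dif_pos h]
      exact h.choose_spec
    have h1 : ((univ : Finset (Fin 4)).image fun i => z i % 3) ⊆
        ((range 3).erase r).image (fun c => z (φ c) % 3) := by
      intro x hx
      rw [mem_image] at hx
      obtain ⟨i, -, rfl⟩ := hx
      rw [mem_image]
      refine ⟨w i % 3, ?_, key _ _ (hφ i)⟩
      rw [mem_erase, mem_range]
      exact ⟨hmiss i, Nat.mod_lt _ (by norm_num)⟩
    refine (card_le_card h1).trans (card_image_le.trans ?_)
    rw [card_erase_of_mem (mem_range.2 hr), card_range]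

end Pool.Agent.H51.PM
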