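import Pool.Agent.H99.RO.Quad
import Pool.Agent.H51.PM.Df

/-!
[H51 PM CLS]  Choice of the classes modulo `Q` (copy of `H99.RO.cls_pig` with a general hypothesis modulo 3), and the quadruples of
`four_dil` in the form `Q4`.

* `cls4`: as `cls_pig`; for `p = 3` the four points `pt D z0 i` are in at most two classes, so for every prime `p ≥ 3` the negatives of the
  `pt D z0 i` in `ZMod p` are fewer than `p`: the same argument as for `p ≥ 5` in `cls_pig`.
* `qd4`: `L = w 3 T`, `U` = the set of all `(w j - w i) m`, `m ∈ A`, `i < j`; the triples of `four_dil` are in `[1, L]^3`, satisfy `Q4 U`, and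
  `0, x, y, n` are in at most two classes modulo 3 (`cls3` with `z = pt 1`).
-/

namespace Pool.Agent.H51.PM

open Finset Pool.Agent.H99.RO

private lemma pt_mul (D : ℕ) (z : ℕ × ℕ × ℕ) (i : Fin 4) : pt D z i = D * pt 1 z i := by
  fin_cases i
  · change 0 = D * 0
    rw [Nat.mul_zero]
  · change D * z.1 = D * (1 * z.1)
    rw [Nat.one_mul]
  · change D * z.2.1 = D * (1 * z.2.1)
    rw [Nat.one_mul]
  · change D * z.2.2 = D * (1 * z.2.2)
    rw [Nat.one_mul]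

open Classical in
private lemma pt_img3 (D : ℕ) (z : ℕ × ℕ × ℕ)
    (h : ((univ : Finset (Fin 4)).image fun i => pt 1 z i % 3).card ≤ 2) (p : ℕ) (hp : p = 3) :
    ((univ : Finset (Fin 4)).image fun i => -((pt D z i : ℕ) : ZMod p)).card ≤ 2 := by
  have h1 : ((univ : Finset (Fin 4)).image fun i => -((pt D z i : ℕ) : ZMod p)) ⊆
      ((univ : Finset (Fin 4)).image fun i => pt 1 z i % 3).image
        fun c : ℕ => -((D * c : ℕ) : ZMod p) := by
    intro x hx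
    rw [mem_image] at hx
    obtain ⟨i, -, rfl⟩ := hx
    rw [mem_image]
    refine ⟨pt 1 z i % 3, mem_image_of_mem _ (mem_univ i), ?_⟩
    rw [pt_mul D z i, ← hp, Nat.cast_mul, Nat.cast_mul, ZMod.natCast_mod]
  exact (card_le_card h1).trans (card_image_le.trans h)

open Classical in
theorem cls4 (D Q : ℕ) (hD : 2 ∣ D) (hQ : 0 < Q) (T : Finset (ℕ × ℕ × ℕ)) (hne : T.Nonempty)
    (hT : ∀ z ∈ T, ((univ : Finset (Fin 4)).image fun i => pt 1 z i % 3).card ≤ 2) :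
    ∃ (z0 : ℕ × ℕ × ℕ) (t0 : ℕ),
      (T.card : ℝ) / (Q : ℝ) ^ 3 ≤ ((T.filter fun z => z.1 ≡ z0.1 [MOD Q] ∧ z.2.1 ≡ z0.2.1 [MOD Q] ∧
        z.2.2 ≡ z0.2.2 [MOD Q]).card : ℝ) ∧ ∀ i, Nat.Coprime (t0 + pt D z0 i) Q := by
  have hQR : (0 : ℝ) < Q := by exact_mod_cast hQ
  have hTc : (0 : ℝ) < T.card := by exact_mod_cast card_pos.2 hne
  have hmaps : ∀ z ∈ T, (fun z : ℕ × ℕ × ℕ => (z.1 % Q, z.2.1 % Q, z.2.2 % Q)) z ∈
      range Q ×ˢ range Q ×ˢ range Q := by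
    intro z _
    rw [mem_product, mem_product, mem_range, mem_range, mem_range]
    exact ⟨Nat.mod_lt _ hQ, Nat.mod_lt _ hQ, Nat.mod_lt _ hQ⟩
  have hcq : ((range Q ×ˢ range Q ×ˢ range Q).card : ℝ) = (Q : ℝ) ^ 3 := by
    rw [card_product, card_product, card_range]
    push_cast
    ring
  obtain ⟨y, hy, hyc⟩ := exists_le_card_fiber_of_nsmul_le_card_of_maps_to
    (M := ℝ) (b := (T.card : ℝ) / (Q : ℝ) ^ 3) hmaps
    ⟨(0, 0, 0), by simp [hQ]⟩ (by
      rw [nsmul_eq_mul, hcq]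
      rw [mul_div_cancel₀]
      positivity)
  have hpos : (0 : ℝ) < ((T.filter fun z => (z.1 % Q, z.2.1 % Q, z.2.2 % Q) = y).card : ℝ) :=
    lt_of_lt_of_le (by positivity) hyc
  obtain ⟨z0, hz0⟩ := card_pos.1 (by exact_mod_cast hpos :
    0 < (T.filter fun z => (z.1 % Q, z.2.1 % Q, z.2.2 % Q) = y).card)
  rw [mem_filter] at hz0
  -- residues
  have hres : ∀ p : ℕ, ∃ r : ℕ, p.Prime → ∀ i, ¬ p ∣ r + pt D z0 i := by
    intro p
    by_cases hp : p.Prime
    swap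
    · exact ⟨0, fun h => absurd h hp⟩
    by_cases hp2 : p = 2
    · refine ⟨1, fun _ i => ?_⟩
      rw [hp2]
      have h1 : ∀ i, 2 ∣ pt D z0 i := by
        intro i
        fin_cases i
        · exact dvd_zero 2
        · exact Dvd.dvd.mul_right hD _
        · exact Dvd.dvd.mul_right hD _
        · exact Dvd.dvd.mul_right hD _
      have h2 := h1 i
      omega
    have : Fact p.Prime := ⟨hp⟩
    have : NeZero p := ⟨hp.ne_zero⟩
    have hlt : (univ.image (fun i : Fin 4 => -((pt D z0 i : ℕ) : ZMod p))).card <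
        (univ : Finset (ZMod p)).card := by
      rw [card_univ (α := ZMod p), ZMod.card]
      by_cases hp3 : p = 3
      · refine lt_of_le_of_lt (pt_img3 D z0 (hT z0 hz0.1) p hp3) ?_
        omega
      · have hp5 : 5 ≤ p := by
          by_contra hlt
          have h1 := hp.two_le
          have h4 : p = 4 := by omega
          rw [h4] at hp
          exact absurd hp (by norm_num)
        refine lt_of_le_of_lt card_image_le ?_
        rw [card_univ, Fintype.card_fin]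
        omega
    obtain ⟨c, -, hc⟩ := exists_mem_notMem_of_card_lt_card hlt
    refine ⟨c.val, fun _ i hdiv => hc ?_⟩
    rw [mem_image]
    refine ⟨i, mem_univ _, ?_⟩
    have h1 : ((c.val + pt D z0 i : ℕ) : ZMod p) = 0 := by
      rw [ZMod.natCast_eq_zero_iff]
      exact hdiv
    rw [Nat.cast_add, ZMod.natCast_zmod_val] at h1
    exact (eq_neg_of_add_eq_zero_left h1).symm
  choose r hr using hres
  obtain ⟨t0, ht0⟩ := Nat.chineseRemainderOfFinset r (fun p => p) Q.primeFactors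
    (fun p hp => (Nat.prime_of_mem_primeFactors hp).ne_zero) (by
      intro p hp q hq hpq
      exact (Nat.coprime_primes (Nat.prime_of_mem_primeFactors hp)
        (Nat.prime_of_mem_primeFactors hq)).2 hpq)
  refine ⟨z0, t0, ?_, ?_⟩
  · refine hyc.trans ?_
    rw [Nat.cast_le]
    refine card_le_card fun z hz => ?_
    rw [mem_filter] at hz ⊢
    refine ⟨hz.1, ?_⟩
    have h1 := hz.2.trans hz0.2.symm
    rw [Prod.mk.injEq, Prod.mk.injEq] at h1
    exact h1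
  · intro i
    by_contra hnc
    obtain ⟨p, hp, hp1, hp2⟩ := Nat.Prime.not_coprime_iff_dvd.1 hnc
    have h1 := ht0 p (Nat.mem_primeFactors.2 ⟨hp, hp2, hQ.ne'⟩)
    refine hr p hp i ?_
    have h2 : t0 + pt D z0 i ≡ r p + pt D z0 i [MOD p] := Nat.ModEq.add_right _ h1
    exact (Nat.modEq_zero_iff_dvd.1 (h2.symm.trans (Nat.modEq_zero_iff_dvd.2 hp1)))


open Classical in
theorem qd4 (w : Fin 4 → ℕ) (hw : StrictMono w) (hw0 : w 0 = 0) (t : ℕ) (ht : Ms w t)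
    (ε : ℝ) (hε : 0 < ε) : ∃ (de : ℝ) (T0 : ℕ), 0 < de ∧ ∀ T : ℕ, T0 ≤ T → ∀ A : Finset ℕ,
      A ⊆ Icc 1 T → (∀ m ∈ A, t ∣ m) → ε * T ≤ (A.card : ℝ) → ∀ U : Finset ℕ,
      (∀ u, u ∈ U ↔ ∃ i j : Fin 4, i < j ∧ ∃ m ∈ A, u = (w j - w i) * m) →
      U ⊆ Icc 1 (w 3 * T) ∧ de * ((w 3 * T : ℕ) : ℝ) ^ 3 ≤
        (((Icc 1 (w 3 * T) ×ˢ Icc 1 (w 3 * T) ×ˢ Icc 1 (w 3 * T)).filter fun z => Q4 U z ∧
          ((univ : Finset (Fin 4)).image fun i => pt 1 z i % 3).card ≤ 2).card : ℝ) := by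
  have hW : 0 < w 3 := by
    have h := hw (show (0 : Fin 4) < 3 by decide)
    omega
  have hWr : (0 : ℝ) < w 3 := by exact_mod_cast hW
  obtain ⟨c, hc, T0, hfd⟩ := four_dil w hw hw0 ε hε
  refine ⟨c / (w 3 : ℝ) ^ 3, T0, by positivity, fun T hT A hA hAt hAc U hU => ?_⟩
  have hUs : U ⊆ Icc 1 (w 3 * T) := by
    intro u hu
    obtain ⟨i, j, hij, m, hm, rfl⟩ := (hU u).1 hu
    have h1 := mem_Icc.1 (hA hm)
    have h2 : w i < w j := hw hij
    have h3 : w j ≤ w 3 := hw.monotone (Fin.le_last j)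
    rw [mem_Icc]
    exact ⟨Nat.mul_pos (by omega) h1.1, Nat.mul_le_mul (by omega) h1.2⟩
  refine ⟨hUs, ?_⟩
  have h1 := hfd T hT A hA hAc
  have h2 : c / (w 3 : ℝ) ^ 3 * ((w 3 * T : ℕ) : ℝ) ^ 3 = c * (T : ℝ) ^ 3 := by
    push_cast
    rw [mul_pow]
    field_simp
  rw [h2]
  refine h1.trans ?_
  rw [Nat.cast_le]
  refine card_le_card fun z hz => ?_
  obtain ⟨-, h01, h12, k01, k02, k03, k12, k13, k23⟩ := mem_filter.1 hz
  have hmu : ∀ i j : Fin 4, i < j → ∀ n, Mu A (w j - w i) n → n ∈ U := by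
    intro i j hij n hn
    obtain ⟨m, hm, rfl⟩ := hn
    exact (hU _).2 ⟨i, j, hij, m, hm, rfl⟩
  have u1 := hmu 0 1 (by decide) _ k01
  have u2 := hmu 0 2 (by decide) _ k02
  have u3 := hmu 0 3 (by decide) _ k03
  have u4 := hmu 1 2 (by decide) _ k12
  have u5 := hmu 1 3 (by decide) _ k13
  have u6 := hmu 2 3 (by decide) _ k23
  rw [mem_filter, mem_product, mem_product]
  refine ⟨⟨hUs u1, hUs u2, hUs u3⟩, ⟨h01, h12, u1, u2, u3, u4, u5, u6⟩, ?_⟩
  refine cls3 w hw t ht A hAt (pt 1 z) ?_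
  have e0 : pt 1 z 0 = 0 := rfl
  have e1 : pt 1 z 1 = 1 * z.1 := rfl
  have e2 : pt 1 z 2 = 1 * z.2.1 := rfl
  have e3 : pt 1 z 3 = 1 * z.2.2 := rfl
  rw [Nat.one_mul] at e1 e2 e3
  have key : ∀ i j : Fin 4, i ≤ j → ∀ a b : ℕ, a ≤ b → Mu A (w j - w i) (b - a) →
      ∃ m ∈ A, b = a + (w j - w i) * m := by
    intro i j _ a b hab hm
    obtain ⟨m, hm, h⟩ := hm
    exact ⟨m, hm, by omega⟩
  intro i j hij
  fin_cases i <;> fin_cases j <;> first
    | (exfalso; revert hij; decide)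
    | skip
  · change ∃ m ∈ A, pt 1 z 1 = pt 1 z 0 + (w 1 - w 0) * m
    rw [e1, e0]
    exact key 0 1 (by decide) _ _ (Nat.zero_le _) k01
  · change ∃ m ∈ A, pt 1 z 2 = pt 1 z 0 + (w 2 - w 0) * m
    rw [e2, e0]
    exact key 0 2 (by decide) _ _ (Nat.zero_le _) k02
  · change ∃ m ∈ A, pt 1 z 3 = pt 1 z 0 + (w 3 - w 0) * m
    rw [e3, e0]
    exact key 0 3 (by decide) _ _ (Nat.zero_le _) k03
  · change ∃ m ∈ A, pt 1 z 2 = pt 1 z 1 + (w 2 - w 1) * m
    rw [e2, e1]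
    exact key 1 2 (by decide) _ _ h01.le k12
  · change ∃ m ∈ A, pt 1 z 3 = pt 1 z 1 + (w 3 - w 1) * m
    rw [e3, e1]
    exact key 1 3 (by decide) _ _ (h01.le.trans h12.le) k13
  · change ∃ m ∈ A, pt 1 z 3 = pt 1 z 2 + (w 3 - w 2) * m
    rw [e3, e2]
    exact key 2 3 (by decide) _ _ h12.le k23

end Pool.Agent.H51.PM
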