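import Pool.Agent.H51.PM.Mg

/-!
[H51 PM FIN]  FourMultiples: for almost all even `h ≤ L` one of `h, 2 h, 3 h, 4 h` (of `h, 2 h, 3 h` if `3 ∣ h`) is popular.
-/

namespace Pool.Agent.H51.PM

open Finset Filter Pool.Agent.H61.UL

theorem w4_mono : StrictMono (![0, 1, 3, 4] : Fin 4 → ℕ) := by
  rw [Fin.strictMono_iff_lt_succ]
  decide

theorem w3_mono : StrictMono (![0, 1, 2, 3] : Fin 4 → ℕ) := by
  rw [Fin.strictMono_iff_lt_succ]
  decide

theorem w4_ms : Ms ![0, 1, 3, 4] 1 := by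
  right
  refine ⟨2, by norm_num, ?_⟩
  decide

theorem w3_ms : Ms ![0, 1, 2, 3] 3 := Or.inl dvd_rfl

theorem w4_dif (i j : Fin 4) (hij : i < j) : (![0, 1, 3, 4] : Fin 4 → ℕ) j - (![0, 1, 3, 4] : Fin 4 → ℕ) i ∈
    Icc 1 4 := by
  revert i j
  decide

theorem w3_dif (i j : Fin 4) (hij : i < j) : (![0, 1, 2, 3] : Fin 4 → ℕ) j - (![0, 1, 2, 3] : Fin 4 → ℕ) i ∈
    Icc 1 3 := by
  revert i j
  decide

open Classical in
/-- the count for the difference `d` -/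
noncomputable def cnt (lam : ℝ) (X L d : ℕ) : ℕ :=
  ((Icc 1 X).filter fun N => N.Prime ∧ (N + d).Prime ∧ ((L : ℝ) ≤ lam * Real.log X →
    ∀ t : ℕ, N < t → t < N + d → ¬ t.Prime)).card

theorem cnt_mono {lam lam' : ℝ} {X L L' d : ℕ} (hlog : 0 ≤ Real.log X) (h1 : L' ≤ L) (h2 : lam ≤ lam') :
    cnt lam' X L' d ≤ cnt lam X L d := by
  classical
  unfold cnt
  apply card_le_card
  intro N hN
  rw [mem_filter] at hN ⊢
  refine ⟨hN.1, hN.2.1, hN.2.2.1, fun h => hN.2.2.2 ?_⟩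
  have h3 : (L' : ℝ) ≤ L := by exact_mod_cast h1
  have h4 : lam * Real.log X ≤ lam' * Real.log X := mul_le_mul_of_nonneg_right h2 hlog
  linarith

open Classical in
theorem fin4 (hU : BlkU) : ∃ K : ℕ, ∀ ε : ℝ, 0 < ε → ∃ (c lam δ : ℝ) (L₀ X₀ : ℕ), 0 < c ∧ 0 < lam ∧
    0 < δ ∧ ∀ X L : ℕ, X₀ ≤ X → L₀ ≤ L → (L : ℝ) ≤ (X : ℝ) ^ δ →
    (((Icc 1 L).filter fun h => Even h ∧ ∀ j ∈ Icc 1 4, (3 ∣ h → j ≤ 3) →
      (cnt lam X L (j * h) : ℝ) <
        c * (min 1 ((L : ℝ) / Real.log X)) ^ K * (X / Real.log X ^ 2)).card : ℝ) ≤ ε * L := by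
  obtain ⟨K1, hK1⟩ := all4 hU ![0, 1, 3, 4] w4_mono rfl 1 w4_ms
  obtain ⟨K2, hK2⟩ := all4 hU ![0, 1, 2, 3] w3_mono rfl 3 w3_ms
  refine ⟨max K1 K2, fun ε hε => ?_⟩
  obtain ⟨c1, lam1, δ1, L1, X1, hc1, hl1, hd1, h1⟩ := hK1 ε hε
  obtain ⟨c2, lam2, δ2, L2, X2, hc2, hl2, hd2, h2⟩ := hK2 ε hε
  refine ⟨min (c1 / 4 ^ K1) (c2 / 4 ^ K2), min lam1 lam2, min δ1 δ2, 2 * L1 + 2 * L2 + 2,
    X1 + X2 + 3, by positivity, by positivity, by positivity, fun X L hX hL hLδ => ?_⟩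
  have hX1 : (1 : ℝ) ≤ X := by
    have : 1 ≤ X := by omega
    exact_mod_cast this
  have hlog : 0 < Real.log X := by
    apply Real.log_pos
    have : 3 ≤ X := by omega
    have : (3 : ℝ) ≤ X := by exact_mod_cast this
    linarith
  obtain ⟨T, hT⟩ : ∃ T : ℕ, T = L / 2 := ⟨_, rfl⟩
  have hT1 : 2 * T ≤ L := by omega
  have hT4 : L ≤ 4 * T := by omega
  have hTL : T ≤ L := by omega
  have hT1' : 2 * (T : ℝ) ≤ L := by exact_mod_cast hT1
  have hT4' : (L : ℝ) ≤ 4 * T := by exact_mod_cast hT4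
  have hT0 : (0 : ℝ) ≤ T := Nat.cast_nonneg _
  have hTδ1 : (T : ℝ) ≤ (X : ℝ) ^ δ1 := by
    refine le_trans ?_ (Real.rpow_le_rpow_of_exponent_le hX1 (min_le_left δ1 δ2))
    linarith
  have hTδ2 : (T : ℝ) ≤ (X : ℝ) ^ δ2 := by
    refine le_trans ?_ (Real.rpow_le_rpow_of_exponent_le hX1 (min_le_right δ1 δ2))
    linarith
  have b1 := h1 X (by omega) T (by omega) hTδ1
  have b2 := h2 X (by omega) T (by omega) hTδ2
  -- comparison of the thresholds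
  have hmin : ∀ K' : ℕ, K' ≤ max K1 K2 → (min 1 ((L : ℝ) / Real.log X)) ^ (max K1 K2) / 4 ^ K' ≤
      (min 1 ((T : ℝ) / Real.log X)) ^ K' := by
    intro K' hK'
    have e0 : 0 ≤ min 1 ((L : ℝ) / Real.log X) := le_min zero_le_one (by positivity)
    have e1 : min 1 ((L : ℝ) / Real.log X) ≤ 1 := min_le_left _ _
    have e2 : min 1 ((L : ℝ) / Real.log X) / 4 ≤ min 1 ((T : ℝ) / Real.log X) := by
      refine le_min (by linarith) ?_
      have e3 : min 1 ((L : ℝ) / Real.log X) ≤ (L : ℝ) / Real.log X := min_le_right _ _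
      have e4 : (L : ℝ) / Real.log X ≤ 4 * T / Real.log X := div_le_div_of_nonneg_right hT4' hlog.le
      have e5 : 4 * (T : ℝ) / Real.log X = 4 * (T / Real.log X) := by ring
      linarith
    calc (min 1 ((L : ℝ) / Real.log X)) ^ (max K1 K2) / 4 ^ K' ≤
          (min 1 ((L : ℝ) / Real.log X)) ^ K' / 4 ^ K' := by
          apply div_le_div_of_nonneg_right _ (by positivity)
          exact pow_le_pow_of_le_one e0 e1 hK'
      _ = (min 1 ((L : ℝ) / Real.log X) / 4) ^ K' := by rw [div_pow]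
      _ ≤ _ := pow_le_pow_left₀ (by positivity) e2 K'
  have hXl : 0 ≤ (X : ℝ) / Real.log X ^ 2 := by positivity
  have hm0 : 0 ≤ (min 1 ((L : ℝ) / Real.log X)) ^ (max K1 K2) :=
    pow_nonneg (le_min zero_le_one (by positivity)) _
  have t1 : min (c1 / 4 ^ K1) (c2 / 4 ^ K2) * (min 1 ((L : ℝ) / Real.log X)) ^ (max K1 K2) *
      (X / Real.log X ^ 2) ≤ c1 * (min 1 ((T : ℝ) / Real.log X)) ^ K1 * (X / Real.log X ^ 2) := by
    apply mul_le_mul_of_nonneg_right _ hXl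
    calc min (c1 / 4 ^ K1) (c2 / 4 ^ K2) * (min 1 ((L : ℝ) / Real.log X)) ^ (max K1 K2) ≤
          c1 / 4 ^ K1 * (min 1 ((L : ℝ) / Real.log X)) ^ (max K1 K2) :=
          mul_le_mul_of_nonneg_right (min_le_left _ _) hm0
      _ = c1 * ((min 1 ((L : ℝ) / Real.log X)) ^ (max K1 K2) / 4 ^ K1) := by ring
      _ ≤ _ := mul_le_mul_of_nonneg_left (hmin K1 (le_max_left _ _)) hc1.le
  have t2 : min (c1 / 4 ^ K1) (c2 / 4 ^ K2) * (min 1 ((L : ℝ) / Real.log X)) ^ (max K1 K2) *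
      (X / Real.log X ^ 2) ≤ c2 * (min 1 ((T : ℝ) / Real.log X)) ^ K2 * (X / Real.log X ^ 2) := by
    apply mul_le_mul_of_nonneg_right _ hXl
    calc min (c1 / 4 ^ K1) (c2 / 4 ^ K2) * (min 1 ((L : ℝ) / Real.log X)) ^ (max K1 K2) ≤
          c2 / 4 ^ K2 * (min 1 ((L : ℝ) / Real.log X)) ^ (max K1 K2) :=
          mul_le_mul_of_nonneg_right (min_le_right _ _) hm0
      _ = c2 * ((min 1 ((L : ℝ) / Real.log X)) ^ (max K1 K2) / 4 ^ K2) := by ring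
      _ ≤ _ := mul_le_mul_of_nonneg_left (hmin K2 (le_max_right _ _)) hc2.le
  -- the bad numbers
  obtain ⟨B1, hB1⟩ : ∃ B1 : Finset ℕ, B1 = (Icc 1 T).filter (fun m => 1 ∣ m ∧ ∀ i j : Fin 4, i < j →
        (((Icc 1 X).filter fun n => n.Prime ∧ (n + 2 * (((![0, 1, 3, 4] : Fin 4 → ℕ) j -
          (![0, 1, 3, 4] : Fin 4 → ℕ) i) * m)).Prime ∧
            ((T : ℝ) ≤ lam1 * Real.log X → ∀ q : ℕ, n < q → q < n + 2 * (((![0, 1, 3, 4] : Fin 4 → ℕ) j -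
          (![0, 1, 3, 4] : Fin 4 → ℕ) i) * m) →
              ¬ q.Prime)).card : ℝ) <
          c1 * (min 1 ((T : ℝ) / Real.log X)) ^ K1 * (X / Real.log X ^ 2)) := ⟨_, rfl⟩
  obtain ⟨B2, hB2⟩ : ∃ B2 : Finset ℕ, B2 = (Icc 1 T).filter (fun m => 3 ∣ m ∧ ∀ i j : Fin 4, i < j →
        (((Icc 1 X).filter fun n => n.Prime ∧ (n + 2 * (((![0, 1, 2, 3] : Fin 4 → ℕ) j -
          (![0, 1, 2, 3] : Fin 4 → ℕ) i) * m)).Prime ∧
            ((T : ℝ) ≤ lam2 * Real.log X → ∀ q : ℕ, n < q → q < n + 2 * (((![0, 1, 2, 3] : Fin 4 → ℕ) j -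
          (![0, 1, 2, 3] : Fin 4 → ℕ) i) * m) →
              ¬ q.Prime)).card : ℝ) <
          c2 * (min 1 ((T : ℝ) / Real.log X)) ^ K2 * (X / Real.log X ^ 2)) := ⟨_, rfl⟩
  rw [← hB1] at b1
  rw [← hB2] at b2
  have hsub : ((Icc 1 L).filter fun h => Even h ∧ ∀ j ∈ Icc 1 4, (3 ∣ h → j ≤ 3) →
      (cnt (min lam1 lam2) X L (j * h) : ℝ) <
        min (c1 / 4 ^ K1) (c2 / 4 ^ K2) * (min 1 ((L : ℝ) / Real.log X)) ^ (max K1 K2) *
          (X / Real.log X ^ 2)) ⊆ (B1 ∪ B2).image (fun m => 2 * m) := by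
    intro h hh
    rw [mem_filter, mem_Icc] at hh
    obtain ⟨⟨hh1, hh2⟩, ⟨m, hm⟩, hbad⟩ := hh
    rw [mem_image]
    refine ⟨m, ?_, by omega⟩
    rw [mem_union]
    by_cases h3 : 3 ∣ h
    · right
      rw [hB2, mem_filter, mem_Icc]
      refine ⟨⟨by omega, by omega⟩, by omega, fun i j hij => ?_⟩
      have hd := w3_dif i j hij
      rw [mem_Icc] at hd
      have e := hbad _ (mem_Icc.2 ⟨hd.1, hd.2.trans (by norm_num)⟩) (fun _ => hd.2)
      obtain ⟨d, hd'⟩ : ∃ d, d = (![0, 1, 2, 3] : Fin 4 → ℕ) j - (![0, 1, 2, 3] : Fin 4 → ℕ) i :=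
        ⟨_, rfl⟩
      rw [← hd'] at e ⊢
      have e2 : d * h = 2 * (d * m) := by rw [hm]; ring
      rw [e2] at e
      have e3 := cnt_mono (lam := min lam1 lam2) (lam' := lam2) (X := X) (L := L) (L' := T)
        (d := 2 * (d * m)) hlog.le hTL (min_le_right _ _)
      have e4 : (cnt lam2 X T (2 * (d * m)) : ℝ) ≤ cnt (min lam1 lam2) X L (2 * (d * m)) := by
        exact_mod_cast e3
      exact lt_of_le_of_lt e4 (lt_of_lt_of_le e t2)
    · left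
      rw [hB1, mem_filter, mem_Icc]
      refine ⟨⟨by omega, by omega⟩, one_dvd _, fun i j hij => ?_⟩
      have hd := w4_dif i j hij
      have e := hbad _ hd (fun h' => absurd h' h3)
      obtain ⟨d, hd'⟩ : ∃ d, d = (![0, 1, 3, 4] : Fin 4 → ℕ) j - (![0, 1, 3, 4] : Fin 4 → ℕ) i :=
        ⟨_, rfl⟩
      rw [← hd'] at e ⊢
      have e2 : d * h = 2 * (d * m) := by rw [hm]; ring
      rw [e2] at e
      have e3 := cnt_mono (lam := min lam1 lam2) (lam' := lam1) (X := X) (L := L) (L' := T)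
        (d := 2 * (d * m)) hlog.le hTL (min_le_left _ _)
      have e4 : (cnt lam1 X T (2 * (d * m)) : ℝ) ≤ cnt (min lam1 lam2) X L (2 * (d * m)) := by
        exact_mod_cast e3
      exact lt_of_le_of_lt e4 (lt_of_lt_of_le e t1)
  have hcard := (card_le_card hsub).trans (card_image_le.trans (card_union_le B1 B2))
  have hcard' : (((Icc 1 L).filter fun h => Even h ∧ ∀ j ∈ Icc 1 4, (3 ∣ h → j ≤ 3) →
      (cnt (min lam1 lam2) X L (j * h) : ℝ) <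
        min (c1 / 4 ^ K1) (c2 / 4 ^ K2) * (min 1 ((L : ℝ) / Real.log X)) ^ (max K1 K2) *
          (X / Real.log X ^ 2)).card : ℝ) ≤ B1.card + B2.card := by
    exact_mod_cast hcard
  refine hcard'.trans ?_
  nlinarith

end Pool.Agent.H51.PM
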