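import Pool.Agent.H21.GC.BoxCount
import Pool.Agent.H21.GC.NonInj
import Pool.Agent.H51.PM.Df

/-!
[H51 PM FOURB]  Boxes of four cells with differences in the dilates of a dense set (from `four_dil`; compare `H21/GC/FourBox.lean`).
-/

namespace Pool.Agent.H51.PM

open Finset Pool.Agent.H21.GC

/-- fewer than `p` residues: there is a shift -/
private theorem exists_shift (p : ℕ) (S : Finset ℕ) (h : (S.image (fun n => n % p)).card < p) :
    ∃ a : ℕ, ∀ n ∈ S, ¬ p ∣ a + n := by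
  obtain ⟨r, hr, hr'⟩ : ∃ r ∈ range p, r ∉ S.image (fun n => n % p) := by
    by_contra hcon
    have hcon' : range p ⊆ S.image (fun n => n % p) := by
      intro r hr
      by_contra h1
      exact hcon ⟨r, hr, h1⟩
    have := card_le_card hcon'
    rw [card_range] at this
    omega
  rw [mem_range] at hr
  refine ⟨p - r, fun n hn hdvd => hr' ?_⟩
  rw [mem_image]
  refine ⟨n, hn, ?_⟩
  have h1 : (p - r + n) + r = n + p := by omega
  have h2 : n ≡ r [MOD p] := by
    have h3 : (p - r + n) + r ≡ 0 + r [MOD p] :=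
      Nat.ModEq.add_right r ((Nat.modEq_zero_iff_dvd).2 hdvd)
    rw [h1, zero_add] at h3
    have h4 : n + p ≡ n [MOD p] := Nat.add_mod_right n p
    exact h4.symm.trans h3
  have h3 : n % p = r % p := h2
  rw [h3, Nat.mod_eq_of_lt hr]

/-- admissibility of the box -/
theorem adm4 (s : ℕ) (V : Fin 4 → Fin s → ℕ) (ρ : Fin 4 → ℕ)
    (hρ : ∀ i j, V i j % (3 * (4 * s).factorial) = ρ i)
    (h3 : ((univ : Finset (Fin 4)).image fun i => ρ i % 3).card ≤ 2) (p : ℕ) (hp : p.Prime) :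
    ∃ a : ℕ, ∀ i j, ¬ p ∣ a + 2 * V i j := by
  obtain ⟨a, ha⟩ := exists_shift p ((univ : Finset (Fin 4 × Fin s)).image
    (fun q => 2 * V q.1 q.2)) (by
      rw [image_image]
      by_cases hp2 : p = 2
      · subst hp2
        refine lt_of_le_of_lt (card_le_card (t := {0}) ?_) (by simp)
        intro r hr
        rw [mem_image] at hr
        obtain ⟨q, -, rfl⟩ := hr
        rw [mem_singleton]
        change (2 * V q.1 q.2) % 2 = 0
        omega
      · by_cases hp3 : p = 3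
        · subst hp3
          refine lt_of_le_of_lt (card_le_card (t := (((univ : Finset (Fin 4)).image
            fun i => ρ i % 3).image fun c => (2 * c) % 3)) ?_)
            (lt_of_le_of_lt (card_image_le.trans h3) (by norm_num))
          intro r hr
          rw [mem_image] at hr
          obtain ⟨q, -, rfl⟩ := hr
          rw [mem_image]
          refine ⟨ρ q.1 % 3, mem_image.2 ⟨q.1, mem_univ _, rfl⟩, ?_⟩
          change (2 * (ρ q.1 % 3)) % 3 = (2 * V q.1 q.2) % 3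
          have h1 : V q.1 q.2 % 3 = ρ q.1 % 3 := by
            rw [← hρ q.1 q.2, Nat.mod_mod_of_dvd _ (Dvd.intro _ rfl)]
          omega
        · have hp5 : 4 < p := by
            by_contra hlt
            have h1 := hp.two_le
            have h4 : p = 4 := by omega
            rw [h4] at hp
            exact absurd hp (by norm_num)
          by_cases hps : p ≤ 4 * s
          · refine lt_of_le_of_lt (card_le_card (t := (univ : Finset (Fin 4)).image
              fun i => (2 * ρ i) % p) ?_) (lt_of_le_of_lt card_image_le (by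
                rw [card_univ, Fintype.card_fin]
                exact hp5))
            intro r hr
            rw [mem_image] at hr
            obtain ⟨q, -, rfl⟩ := hr
            rw [mem_image]
            refine ⟨q.1, mem_univ _, ?_⟩
            change (2 * ρ q.1) % p = (2 * V q.1 q.2) % p
            have h1 : p ∣ 3 * (4 * s).factorial :=
              Dvd.dvd.mul_left ((Nat.dvd_factorial hp.pos hps)) 3
            have h2 : V q.1 q.2 % p = ρ q.1 % p := by
              rw [← hρ q.1 q.2, Nat.mod_mod_of_dvd _ h1]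
            rw [Nat.mul_mod, ← h2, ← Nat.mul_mod]
          · refine lt_of_le_of_lt card_image_le ?_
            rw [card_univ, Fintype.card_prod, Fintype.card_fin, Fintype.card_fin]
            omega)
  refine ⟨a, fun i j => ha _ ?_⟩
  rw [mem_image]
  exact ⟨(i, j), mem_univ _, rfl⟩

open Classical in
theorem box4 (w : Fin 4 → ℕ) (hw : StrictMono w) (hw0 : w 0 = 0) (t : ℕ) (ht : Ms w t)
    (ε : ℝ) (hε : 0 < ε) (s : ℕ) (hs : 1 ≤ s) : ∃ δ : ℝ, 0 < δ ∧ ∃ T₀ : ℕ,
    ∀ T : ℕ, T₀ ≤ T → ∀ A : Finset ℕ, A ⊆ Icc 1 T → (∀ m ∈ A, t ∣ m) → ε * T ≤ (A.card : ℝ) →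
      δ * (T : ℝ) ^ (4 * s) ≤ ((univ.filter (fun V : Fin 4 → Fin s → Fin (4 * w 3 * T + 1) =>
        (∀ i j i' j', V i j = V i' j' → i = i' ∧ j = j') ∧
        (∀ p : ℕ, p.Prime → ∃ a : ℕ, ∀ i j, ¬ p ∣ a + 2 * (V i j : ℕ)) ∧
        ∀ i j i' j', i ≠ i' → (V i j : ℕ) < V i' j' → ∃ a b : Fin 4, a < b ∧
          Mu A (w b - w a) ((V i' j' : ℕ) - V i j))).card : ℝ) := by
  obtain ⟨c, hc, T₁, hT₁⟩ := four_dil w hw hw0 ε hε
  have hW : 0 < w 3 := by
    have h := hw (show (0 : Fin 4) < 3 by decide)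
    omega
  have hWr : (1 : ℝ) ≤ w 3 := by exact_mod_cast hW
  obtain ⟨L, hL⟩ : ∃ L, L = 3 * (4 * s).factorial := ⟨_, rfl⟩
  have hL0 : 0 < L := by rw [hL]; positivity
  have hLr : (0 : ℝ) < L := by exact_mod_cast hL0
  obtain ⟨c', hc'⟩ : ∃ c', c' = c / ((5 * w 3) ^ 4 * (L : ℝ) ^ 4) := ⟨_, rfl⟩
  have hc'0 : 0 < c' := by rw [hc']; positivity
  obtain ⟨κ, hκ⟩ : ∃ κ, κ = c' ^ (s ^ 4) := ⟨_, rfl⟩
  have hκ0 : 0 < κ := by rw [hκ]; positivity
  obtain ⟨T₂, hT₂⟩ := exists_nat_gt (2 * ((4 : ℝ) * s) ^ 2 / κ)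
  refine ⟨κ / 2, by positivity, T₁ + T₂ + 1, fun T hT A hA hAt hAc => ?_⟩
  have hT0 : (0 : ℝ) < T := by
    have : 0 < T := by omega
    exact_mod_cast this
  have hT1 : (1 : ℝ) ≤ T := by
    have : 1 ≤ T := by omega
    exact_mod_cast this
  obtain ⟨M, hM⟩ : ∃ M, M = 4 * w 3 * T := ⟨_, rfl⟩
  have hMT : T ≤ M := by
    rw [hM]
    exact Nat.le_mul_of_pos_left T (by omega)
  rw [← hM]
  -- the relation without the residues
  obtain ⟨R', hR'⟩ : ∃ R' : (Fin 4 → Fin (M + 1)) → Prop, R' = fun v =>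
      ∀ i j, i < j → ∃ m ∈ A, (v j : ℕ) = v i + (w j - w i) * m := ⟨_, rfl⟩
  have h4 := hT₁ T (by omega) A hA hAc
  have h5 : c * (T : ℝ) ^ 4 ≤ ((univ.filter R').card : ℝ) := by
    have h6 : (range (2 * w 3 * T + 1) ×ˢ ((range (2 * w 3 * T + 1) ×ˢ range (2 * w 3 * T + 1) ×ˢ
        range (2 * w 3 * T + 1)).filter (Qd A w))) ⊆ (univ.filter R').image (fun v =>
          ((v 0 : ℕ), (v 1 : ℕ) - v 0, (v 2 : ℕ) - v 0, (v 3 : ℕ) - v 0)) := by
      rintro ⟨z, x, y, n⟩ hq
      rw [mem_product, mem_filter, mem_product, mem_product, mem_range, mem_range, mem_range,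
        mem_range] at hq
      obtain ⟨hz, ⟨hx, hy, hn⟩, h1, h2, ⟨m1, a1, b1⟩, ⟨m2, a2, b2⟩, ⟨m3, a3, b3⟩, ⟨m4, a4, b4⟩,
        ⟨m5, a5, b5⟩, ⟨m6, a6, b6⟩⟩ := hq
      simp only at hz hx hy hn h1 h2 b1 b2 b3 b4 b5 b6
      have hb : 2 * w 3 * T + 2 * w 3 * T = M := by rw [hM]; ring
      rw [mem_image]
      refine ⟨![⟨z, by omega⟩, ⟨z + x, by omega⟩, ⟨z + y, by omega⟩, ⟨z + n, by omega⟩], ?_, ?_⟩
      · rw [mem_filter, hR']
        refine ⟨mem_univ _, ?_⟩
        have e01 : ∃ m ∈ A, z + x = z + (w 1 - w 0) * m := ⟨m1, a1, by omega⟩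
        have e02 : ∃ m ∈ A, z + y = z + (w 2 - w 0) * m := ⟨m2, a2, by omega⟩
        have e03 : ∃ m ∈ A, z + n = z + (w 3 - w 0) * m := ⟨m3, a3, by omega⟩
        have e12 : ∃ m ∈ A, z + y = z + x + (w 2 - w 1) * m := ⟨m4, a4, by omega⟩
        have e13 : ∃ m ∈ A, z + n = z + x + (w 3 - w 1) * m := ⟨m5, a5, by omega⟩
        have e23 : ∃ m ∈ A, z + n = z + y + (w 3 - w 2) * m := ⟨m6, a6, by omega⟩
        have f4 : ∀ i : Fin 4, i = 0 ∨ i = 1 ∨ i = 2 ∨ i = 3 := by decide
        intro i j hij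
        rcases f4 i with rfl | rfl | rfl | rfl <;> rcases f4 j with rfl | rfl | rfl | rfl <;>
          first
            | exact absurd hij (by decide)
            | exact e01
            | exact e02
            | exact e03
            | exact e12
            | exact e13
            | exact e23
      · change (z, z + x - z, z + y - z, z + n - z) = _
        rw [Nat.add_sub_cancel_left, Nat.add_sub_cancel_left, Nat.add_sub_cancel_left]
    have h7 := (card_le_card h6).trans card_image_le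
    rw [card_product, card_range] at h7
    have h8 : (2 * (w 3 : ℝ) * T + 1) * (((range (2 * w 3 * T + 1) ×ˢ range (2 * w 3 * T + 1) ×ˢ
        range (2 * w 3 * T + 1)).filter (Qd A w)).card : ℝ) ≤ ((univ.filter R').card : ℝ) := by
      exact_mod_cast h7
    refine le_trans ?_ h8
    have h9 : (T : ℝ) ≤ 2 * (w 3 : ℝ) * T + 1 := by nlinarith
    calc c * (T : ℝ) ^ 4 = T * (c * (T : ℝ) ^ 3) := by ring
      _ ≤ (2 * (w 3 : ℝ) * T + 1) * (c * (T : ℝ) ^ 3) :=
          mul_le_mul_of_nonneg_right h9 (by positivity)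
      _ ≤ _ := mul_le_mul_of_nonneg_left h4 (by positivity)
  -- the residues
  obtain ⟨ρ, -, hρ⟩ := exists_le_card_fiber_of_nsmul_le_card_of_maps_to
    (s := univ.filter R') (t := (univ : Finset (Fin 4 → Fin L)))
    (f := fun v i => (⟨(v i : ℕ) % L, Nat.mod_lt _ hL0⟩ : Fin L))
    (b := c * (T : ℝ) ^ 4 / (L : ℝ) ^ 4) (fun _ _ => mem_univ _)
    ⟨fun _ => ⟨0, hL0⟩, mem_univ _⟩ (by
      rw [card_univ, Fintype.card_fun, Fintype.card_fin, Fintype.card_fin, nsmul_eq_mul,
        Nat.cast_pow, mul_div_cancel₀ _ (by positivity)]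
      exact h5)
  rw [filter_filter] at hρ
  obtain ⟨R, hR⟩ : ∃ R : (Fin 4 → Fin (M + 1)) → Prop, R = fun v =>
      R' v ∧ (fun i => (⟨(v i : ℕ) % L, Nat.mod_lt _ hL0⟩ : Fin L)) = ρ := ⟨_, rfl⟩
  have hMr : (M : ℝ) = 4 * w 3 * T := by
    rw [hM]
    push_cast
    ring
  have hX : (Fintype.card (Fin (M + 1)) : ℝ) = 4 * w 3 * T + 1 := by
    rw [Fintype.card_fin]
    push_cast
    rw [hMr]
  have h6 := box_count 4 s R c' hc'0.le (by
    rw [hR]
    refine le_trans ?_ (hρ.trans (card_imp fun v hv => hv))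
    rw [hX, hc']
    have h7 : (4 * (w 3 : ℝ) * T + 1) ^ 4 ≤ (5 * w 3 * (T : ℝ)) ^ 4 := by
      refine pow_le_pow_left₀ (by positivity) ?_ 4
      nlinarith
    have h8 := mul_le_mul_of_nonneg_left h7
      (show (0 : ℝ) ≤ c / ((5 * w 3) ^ 4 * (L : ℝ) ^ 4) by positivity)
    refine h8.trans (le_of_eq ?_)
    field_simp)
  rw [← hκ] at h6
  have h7 := inj_part 4 s (M + 1) (fun V => ∀ φ : Fin 4 → Fin s, R fun i => V i (φ i)) κ
    (by omega) (by
      have h8 : (T₂ : ℝ) ≤ ((M + 1 : ℕ) : ℝ) := by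
        have : T₂ ≤ M + 1 := by omega
        exact_mod_cast this
      rw [div_lt_iff₀ hκ0] at hT₂
      have h9 := mul_le_mul_of_nonneg_left h8 hκ0.le
      have h10 : (((4 : ℕ) : ℝ) * s) ^ 2 = (4 * (s : ℝ)) ^ 2 := by norm_num
      rw [h10]
      linarith) (by
      rw [Fintype.card_fin] at h6
      exact h6.trans (card_imp fun v hv => hv))
  have h8 : κ / 2 * (T : ℝ) ^ (4 * s) ≤ κ / 2 * (((M + 1 : ℕ) : ℝ)) ^ (4 * s) := by
    refine mul_le_mul_of_nonneg_left (pow_le_pow_left₀ hT0.le ?_ _) (by positivity)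
    have : T ≤ M + 1 := by omega
    exact_mod_cast this
  refine h8.trans (h7.trans (card_imp ?_))
  intro V hV
  obtain ⟨hV1, hV2⟩ := hV
  refine ⟨hV1, ?_, ?_⟩
  · -- admissible
    have hres : ∀ i j, (V i j : ℕ) % L = (ρ i : ℕ) := by
      intro i j
      have h1 := hV2 (fun _ => j)
      rw [hR] at h1
      have h2 := congrFun h1.2 i
      exact congrArg Fin.val h2
    have h0 := hV2 (fun _ => ⟨0, hs⟩)
    rw [hR, hR'] at h0
    have h3 := cls3 w hw t ht A hAt (fun i => (V i ⟨0, hs⟩ : ℕ)) h0.1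
    have hd : 3 ∣ L := by rw [hL]; exact Dvd.intro _ rfl
    have h3' : ((univ : Finset (Fin 4)).image fun i => (ρ i : ℕ) % 3).card ≤ 2 := by
      refine le_trans (le_of_eq ?_) h3
      congr 1
      refine image_congr fun i _ => ?_
      show (ρ i : ℕ) % 3 = (V i ⟨0, hs⟩ : ℕ) % 3
      rw [← hres i ⟨0, hs⟩, Nat.mod_mod_of_dvd _ hd]
    intro p hp
    refine adm4 s (fun i j => (V i j : ℕ)) (fun i => (ρ i : ℕ)) ?_ h3' p hp
    intro i j
    rw [← hL]
    exact hres i j
  · intro i j i' j' hii hlt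
    have h1 := hV2 (fun l => if l = i then j else j')
    rw [hR, hR'] at h1
    have h2 := h1.1
    rcases lt_or_gt_of_ne hii with h | h
    · obtain ⟨m, hm, e⟩ := h2 i i' h
      simp only [if_true, if_neg (Ne.symm hii)] at e
      exact ⟨i, i', h, m, hm, by omega⟩
    · obtain ⟨m, hm, e⟩ := h2 i' i h
      simp only [if_true, if_neg (Ne.symm hii)] at e
      exact absurd hlt (by omega)

end Pool.Agent.H51.PM
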