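import Pool.Agent.H99.RO.P3
import Pool.Agent.H51.PM.Cls

/-!
[H51 PM P4]  THEOREM P4 for `C log x ≤ L ≤ x^c'`.

Proof: copy of `H99/RO/P3.lean` (`part3` with `D = 2`; the private theorems `p3_card`, `p3_core`, `p3_om`, `p3_nonpop` have to be copied, or made
public by their owner) with `qd4` in place of `k4` and `cls4` in place of `cls_pig`: `L1 = w 3 * L`; by contradiction `A` = the set of the bad `m ∈ [1, L]`, `A.card > e L`;
`U` = the set of the `(w j - w i) m`, `m ∈ A` (all `2 u`, `u ∈ U`, are unpopular), `U ⊆ [1, L1]`; `qd4` gives `T1`, `cls4` gives `z0, t0, T`; then `p3_core 2 L1 Q ..` with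
`n = 800 L1`.  `c' = c2/2` as before with `400 * 2 * w 3 ≤ x^(c2/2)`.
-/

namespace Pool.Agent.H51.PM

open Finset Pool.Agent.H99.RO

theorem p4_card (n Q a : ℕ) (hQ : 0 < Q) :
    (n : ℝ) / Q - 1 ≤ (((Icc 1 n).filter fun v => v ≡ a [MOD Q]).card : ℝ) ∧
    (((Icc 1 n).filter fun v => v ≡ a [MOD Q]).card : ℝ) ≤ n / Q + 1 := by
  have h1 : (Icc 1 n) = Ioc 0 n := by
    ext v
    simp only [mem_Icc, mem_Ioc]
    omega
  rw [h1]
  have h2 := Nat.Ioc_filter_modEq_card 0 n hQ a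
  have hQ0 : (0 : ℚ) < Q := by exact_mod_cast hQ
  have hfl : ((⌊((n : ℚ) - a) / Q⌋ - ⌊(((0 : ℕ) : ℚ) - a) / Q⌋ : ℤ) : ℚ) ≤ (n : ℚ) / Q + 1 ∧
      (n : ℚ) / Q - 1 ≤ ((⌊((n : ℚ) - a) / Q⌋ - ⌊(((0 : ℕ) : ℚ) - a) / Q⌋ : ℤ) : ℚ) := by
    push_cast
    have a1 := Int.floor_le (((n : ℚ) - a) / Q)
    have a2 := Int.lt_floor_add_one (((n : ℚ) - a) / Q)
    have a3 := Int.floor_le (((0 : ℚ) - a) / Q)
    have a4 := Int.lt_floor_add_one (((0 : ℚ) - a) / Q)
    have a5 : ((n : ℚ) - a) / Q - ((0 : ℚ) - a) / Q = n / Q := by ring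
    constructor <;> linarith
  have h3 : ((((Ioc 0 n).filter fun v => v ≡ a [MOD Q]).card : ℤ) : ℚ) =
      ((max (⌊((n : ℚ) - a) / Q⌋ - ⌊(((0 : ℕ) : ℚ) - a) / Q⌋) 0 : ℤ) : ℚ) := by
    rw [h2]
  have h4 : (n : ℚ) / Q - 1 ≤ ((((Ioc 0 n).filter fun v => v ≡ a [MOD Q]).card : ℤ) : ℚ) ∧
      ((((Ioc 0 n).filter fun v => v ≡ a [MOD Q]).card : ℤ) : ℚ) ≤ n / Q + 1 := by
    rw [h3, Int.cast_max, Int.cast_zero]
    constructor
    · exact hfl.2.trans (le_max_left _ _)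
    · refine max_le hfl.1 ?_
      positivity
  have h5 : (n : ℚ) / Q - 1 ≤ (((Ioc 0 n).filter fun v => v ≡ a [MOD Q]).card : ℚ) ∧
      (((Ioc 0 n).filter fun v => v ≡ a [MOD Q]).card : ℚ) ≤ n / Q + 1 := by
    exact_mod_cast h4
  constructor
  · have h6 := (Rat.cast_le (K := ℝ)).2 h5.1
    push_cast at h6
    exact h6
  · have h6 := (Rat.cast_le (K := ℝ)).2 h5.2
    push_cast at h6
    exact h6

open Classical in
theorem p4_core (D L Q : ℕ) (hD : 0 < D) (hQ : 0 < Q) (de e2 : ℝ) (hde : 0 < de)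
    (he2 : 0 < e2) (he2a : e2 ≤ 1 / 10000) (he2b : 368640000 * D * e2 < de)
    (n : ℕ) (hn : n = 400 * D * L) (hy : 600 ≤ (n : ℝ) / Q) (hLQ : 1 ≤ (L : ℝ) / Q)
    (U : Finset ℕ) (hU : U ⊆ Icc 1 L) (T : Finset (ℕ × ℕ × ℕ)) (hT : ∀ z ∈ T, Q4 U z)
    (hTc : de * ((L : ℝ) / Q) ^ 3 ≤ T.card) (z0 : ℕ × ℕ × ℕ) (t0 : ℕ)
    (hcl : ∀ z ∈ T, z.1 ≡ z0.1 [MOD Q] ∧ z.2.1 ≡ z0.2.1 [MOD Q] ∧ z.2.2 ≡ z0.2.2 [MOD Q])
    (O : Finset ℕ) (hO : O.Nonempty) (V : Finset ℕ)
    (hV : V = (Icc 1 n).filter fun v => ∃ i, v ≡ t0 + pt D z0 i [MOD Q])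
    (co : ℕ → Fin 4)
    (hco : ∀ v : ℕ, (∃ i, v ≡ t0 + pt D z0 i [MOD Q]) → v ≡ t0 + pt D z0 (co v) [MOD Q])
    (hco2 : ∀ v v' : ℕ, v ≡ v' [MOD Q] → co v = co v')
    (S : ℕ → Finset ℕ) (hS : ∀ N, S N ⊆ V)
    (hS1 : ∀ s : Fin 4, (13 / 50 * (1 - e2) - e2) * ((V.filter fun v => co v = s).card : ℝ) *
            O.card - e2 * V.card * O.card ≤
          ∑ N ∈ O, (((S N).filter fun v => co v = s).card : ℝ))
    (hS2 : ∑ N ∈ O, (((S N ×ˢ S N).filter fun w => ∃ u ∈ U, w.2 = w.1 + D * u).card : ℝ) ≤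
      2 * e2 * (V.card : ℝ) ^ 2 * O.card) : False := by
  have hQ0 : (0 : ℝ) < Q := by exact_mod_cast hQ
  have hD0 : (0 : ℝ) < D := by exact_mod_cast hD
  have hO0 : (0 : ℝ) < O.card := by exact_mod_cast hO.card_pos
  obtain ⟨y, hy'⟩ : ∃ y : ℝ, y = (n : ℝ) / Q := ⟨_, rfl⟩
  obtain ⟨l, hl⟩ : ∃ l : ℝ, l = (L : ℝ) / Q := ⟨_, rfl⟩
  rw [← hy'] at hy
  rw [← hl] at hLQ hTc
  have hyl : y = 400 * D * l := by
    rw [hy', hl, hn]
    push_cast
    ring
  have hmem : ∀ (i : Fin 4) (v : ℕ), v ∈ V →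
      (v ≡ t0 + pt D z0 i [MOD Q] ↔ co v = co (t0 + pt D z0 i)) := by
    intro i v hv
    constructor
    · exact fun h => hco2 _ _ h
    · intro h
      have h1 := hco v (by rw [hV, mem_filter] at hv; exact hv.2)
      rw [h] at h1
      exact h1.trans (hco (t0 + pt D z0 i) ⟨i, rfl⟩).symm
  have hVf : ∀ i : Fin 4, (V.filter fun v => co v = co (t0 + pt D z0 i)) =
      (Icc 1 n).filter fun v => v ≡ t0 + pt D z0 i [MOD Q] := by
    intro i
    ext v
    rw [mem_filter, mem_filter]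
    constructor
    · rintro ⟨h1, h2⟩
      refine ⟨?_, (hmem i v h1).2 h2⟩
      rw [hV, mem_filter] at h1
      exact h1.1
    · rintro ⟨h1, h2⟩
      have h3 : v ∈ V := by
        rw [hV, mem_filter]
        exact ⟨h1, i, h2⟩
      exact ⟨h3, (hmem i v h3).1 h2⟩
  have hSf : ∀ (i : Fin 4) (N : ℕ), ((S N).filter fun v => co v = co (t0 + pt D z0 i)) =
      (S N).filter fun v => v ≡ t0 + pt D z0 i [MOD Q] := by
    intro i N
    refine filter_congr fun v hv => ?_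
    exact (hmem i v (hS N hv)).symm
  have hVlow : ∀ i : Fin 4, y - 1 ≤ ((V.filter fun v => co v = co (t0 + pt D z0 i)).card : ℝ) := by
    intro i
    rw [hVf i, hy']
    exact (p4_card n Q _ hQ).1
  have hVup : (V.card : ℝ) ≤ 4 * (y + 1) := by
    have h1 : V ⊆ univ.biUnion fun i : Fin 4 =>
        (Icc 1 n).filter fun v => v ≡ t0 + pt D z0 i [MOD Q] := by
      intro v hv
      rw [hV, mem_filter] at hv
      obtain ⟨h1, i, h2⟩ := hv
      rw [mem_biUnion]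
      exact ⟨i, mem_univ _, mem_filter.2 ⟨h1, h2⟩⟩
    have h2 : (V.card : ℝ) ≤
        ∑ i : Fin 4, (((Icc 1 n).filter fun v => v ≡ t0 + pt D z0 i [MOD Q]).card : ℝ) := by
      exact_mod_cast (card_le_card h1).trans card_biUnion_le
    refine h2.trans ?_
    calc _ ≤ ∑ i : Fin 4, (y + 1) := sum_le_sum fun i _ => by
            rw [hy']
            exact (p4_card n Q _ hQ).2
      _ = 4 * (y + 1) := by
            rw [sum_const, card_univ, Fintype.card_fin, nsmul_eq_mul]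
            push_cast
            ring
  have hlow : (4 * ((13 / 50 * (1 - e2) - e2) * (y - 1)) - 16 * e2 * (y + 1)) * O.card ≤
      ∑ N ∈ O, ∑ i : Fin 4, (((S N).filter fun v => v ≡ t0 + pt D z0 i [MOD Q]).card : ℝ) := by
    rw [sum_comm]
    calc _ = ∑ i : Fin 4, ((13 / 50 * (1 - e2) - e2) * (y - 1) * O.card -
            e2 * (4 * (y + 1)) * O.card) := by
          rw [sum_const, card_univ, Fintype.card_fin, nsmul_eq_mul]
          push_cast
          ring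
      _ ≤ _ := sum_le_sum fun i _ => by
          have h1 := hS1 (co (t0 + pt D z0 i))
          simp only [hSf i] at h1
          refine le_trans ?_ h1
          have h2 : 0 < 13 / 50 * (1 - e2) - e2 := by linarith
          have h3 := hVlow i
          gcongr
  have hmain : (T.card : ℝ) * (y / 100 * O.card) ≤ 18 * (l + 1) ^ 2 *
      ∑ N ∈ O, (((S N ×ˢ S N).filter fun w => ∃ u ∈ U, w.2 = w.1 + D * u).card : ℝ) := by
    have h1 : ∑ N ∈ O, ((T.card : ℝ) * (∑ i : Fin 4,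
          (((S N).filter fun v => v ≡ t0 + pt D z0 i [MOD Q]).card : ℝ) -
        (4 * D * L / Q + 8) - (n / Q + 1))) ≤ ∑ N ∈ O, (18 * ((L : ℝ) / Q + 1) ^ 2 *
        (((S N ×ˢ S N).filter fun w => ∃ u ∈ U, w.2 = w.1 + D * u).card : ℝ)) := by
      refine sum_le_sum fun N _ => ?_
      exact quad_pairs D L n Q hD hQ (by
          rw [hn]
          calc D * L = 1 * (D * L) := (one_mul _).symm
            _ ≤ 400 * (D * L) := Nat.mul_le_mul_right _ (by norm_num)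
            _ = 400 * D * L := by ring) U hU T hT z0 t0 hcl (S N) (by
        refine (hS N).trans ?_
        rw [hV]
        exact filter_subset _ _)
    rw [← mul_sum, ← mul_sum, sum_sub_distrib, sum_sub_distrib, sum_const, sum_const,
      nsmul_eq_mul, nsmul_eq_mul, ← hl, ← hy'] at h1
    refine le_trans ?_ h1
    have h2 : 4 * (D : ℝ) * L / Q = y / 100 := by
      rw [hyl, hl]
      ring
    rw [h2]
    have h4 : y / 100 ≤ (4 * ((13 / 50 * (1 - e2) - e2) * (y - 1)) - 16 * e2 * (y + 1)) -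
        (y / 100 + 8) - (y + 1) := by
      nlinarith [mul_nonneg (sub_nonneg.2 he2a) (sub_nonneg.2 hy)]
    have h3 : (T.card : ℝ) * (y / 100 * O.card) ≤ T.card *
        (((4 * ((13 / 50 * (1 - e2) - e2) * (y - 1)) - 16 * e2 * (y + 1)) * O.card) -
          O.card * (y / 100 + 8) - O.card * (y + 1)) := by
      refine mul_le_mul_of_nonneg_left ?_ (Nat.cast_nonneg _)
      calc y / 100 * O.card ≤ ((4 * ((13 / 50 * (1 - e2) - e2) * (y - 1)) - 16 * e2 * (y + 1)) -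
              (y / 100 + 8) - (y + 1)) * O.card := mul_le_mul_of_nonneg_right h4 hO0.le
        _ = _ := by ring
    refine h3.trans (mul_le_mul_of_nonneg_left ?_ (Nat.cast_nonneg _))
    linarith
  have hl0 : 0 < l := by linarith
  have hy0 : 0 < y := by linarith
  have h1 : (T.card : ℝ) * (y / 100 * O.card) ≤
      18 * (l + 1) ^ 2 * (2 * e2 * (V.card : ℝ) ^ 2 * O.card) :=
    hmain.trans (mul_le_mul_of_nonneg_left hS2 (by positivity))
  have h2 : de * l ^ 3 * (y / 100) ≤ 18 * (2 * l) ^ 2 * (2 * e2 * (8 * y) ^ 2) := by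
    have h3 : de * l ^ 3 * (y / 100) * O.card ≤
        18 * (2 * l) ^ 2 * (2 * e2 * (8 * y) ^ 2) * O.card := by
      have h5 : (V.card : ℝ) ≤ 8 * y := by linarith
      have h6 : l + 1 ≤ 2 * l := by linarith
      calc _ = de * l ^ 3 * (y / 100 * O.card) := by ring
        _ ≤ T.card * (y / 100 * O.card) := mul_le_mul_of_nonneg_right hTc (by positivity)
        _ ≤ _ := h1
        _ ≤ 18 * (2 * l) ^ 2 * (2 * e2 * (8 * y) ^ 2 * O.card) := by gcongr
        _ = _ := by ring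
    exact le_of_mul_le_mul_right h3 hO0
  have h4 : de * (4 * D * l ^ 4) ≤ (368640000 * D * e2) * (4 * D * l ^ 4) := by
    rw [hyl] at h2
    calc _ = de * l ^ 3 * (400 * D * l / 100) := by ring
      _ ≤ _ := h2
      _ = _ := by ring
  have h5 : 0 < 4 * (D : ℝ) * l ^ 4 := by positivity
  exact absurd (le_of_mul_le_mul_right h4 h5) (not_le.2 he2b)

theorem p4_om (x : ℝ) (Q : ℕ) (hQ : 0 < Q) (hx : 4 * Q ≤ x) :
    x / (2 * Q) ≤ ((Om x Q).card : ℝ) := by
  have hQ0 : (0 : ℝ) < Q := by exact_mod_cast hQ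
  have h1 : (Om x Q).card = ⌊x⌋₊ / Q := by
    rw [← Nat.Ioc_filter_dvd_card_eq_div]
    unfold Om
    congr 1
  rw [h1, ← Nat.floor_div_natCast]
  have h2 := Nat.lt_floor_add_one (x / Q)
  have h3 : 4 ≤ x / Q := by rw [le_div_iff₀ hQ0]; exact hx
  have h4 : x / (2 * Q) = x / Q / 2 := by
    field_simp
  rw [h4]
  linarith

open Classical in
theorem p4_nonpop (D Q n : ℕ) (hQ : 0 < Q) (c x : ℝ) (hc : 0 < c) (hx : 4 * Q ≤ x)
    (hlog : 1 ≤ Real.log x) (hn : (n : ℝ) ≤ c / (4 * Q) * x / Real.log x ^ 2)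
    (A : Finset ℕ) (hA : ∀ p ∈ A, p.Prime) (v u : ℕ) (hv : v ≤ n)
    (hu : (((Icc 1 ⌊x⌋₊).filter fun N => N.Prime ∧ (N + D * u).Prime).card : ℝ) <
      c / (4 * Q) * x / Real.log x ^ 2) :
    ¬ PopA x Q A c ![v, v + D * u] := by
  intro h
  unfold PopA at h
  have hQ0 : (0 : ℝ) < Q := by exact_mod_cast hQ
  have hx0 : 0 < x := by linarith
  have h1 : ((Om x Q).filter fun N => ∀ i : Fin 2, N + (![v, v + D * u] : Fin 2 → ℕ) i ∈ A).card ≤
      ((Icc 1 ⌊x⌋₊).filter fun N => N.Prime ∧ (N + D * u).Prime).card + n := by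
    have h2 : ((Om x Q).filter fun N => ∀ i : Fin 2, N + (![v, v + D * u] : Fin 2 → ℕ) i ∈ A).card ≤
        (((Icc 1 ⌊x⌋₊).filter fun N => N.Prime ∧ (N + D * u).Prime) ∪
          Ioc ⌊x⌋₊ (⌊x⌋₊ + n)).card := by
      refine card_le_card_of_injOn (fun N => N + v) ?_ ?_
      · intro N hN
        rw [mem_coe, mem_filter] at hN
        obtain ⟨hN1, hN2⟩ := hN
        unfold Om at hN1
        rw [mem_filter, mem_Icc] at hN1
        have h3 := hA _ (hN2 0)
        have h4 := hA _ (hN2 1)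
        simp only [Matrix.cons_val_zero, Matrix.cons_val_one] at h3 h4
        rw [mem_coe, mem_union, mem_filter, mem_Icc, mem_Ioc]
        by_cases h5 : N + v ≤ ⌊x⌋₊
        · left
          refine ⟨⟨?_, h5⟩, h3, ?_⟩
          · show 1 ≤ N + v
            omega
          · show Nat.Prime (N + v + D * u)
            rw [add_assoc]
            exact h4
        · right
          show ⌊x⌋₊ < N + v ∧ N + v ≤ ⌊x⌋₊ + n
          omega
      · intro a _ b _ hab
        simp only at hab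
        omega
    refine h2.trans ((card_union_le _ _).trans ?_)
    rw [Nat.card_Ioc]
    omega
  have h1' : (((Om x Q).filter fun N => ∀ i : Fin 2,
      N + (![v, v + D * u] : Fin 2 → ℕ) i ∈ A).card : ℝ) ≤
      (((Icc 1 ⌊x⌋₊).filter fun N => N.Prime ∧ (N + D * u).Prime).card : ℝ) + n := by
    exact_mod_cast h1
  have h3 := p4_om x Q hQ hx
  have hlam : 1 / Real.log x ≤ lam x Q := by
    unfold lam
    have h4 : (Nat.totient Q : ℝ) ≤ Q := by exact_mod_cast Nat.totient_le Q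
    have h5 : (0 : ℝ) < Nat.totient Q := by exact_mod_cast Nat.totient_pos.mpr hQ
    rw [div_le_div_iff₀ (by linarith) (by positivity)]
    nlinarith
  have h6 : 2 * (c / (4 * Q) * x / Real.log x ^ 2) ≤ c * lam x Q ^ 2 * (Om x Q).card := by
    calc 2 * (c / (4 * Q) * x / Real.log x ^ 2) = c * (1 / Real.log x) ^ 2 * (x / (2 * Q)) := by
          field_simp
          norm_num
      _ ≤ _ := by
          gcongr
  linarith

open Classical in
theorem part4 (w : Fin 4 → ℕ) (hw : StrictMono w) (hw0 : w 0 = 0) (t : ℕ) (ht : Ms w t)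
    (e : ℝ) (he : 0 < e) : ∃ c C c' x0 : ℝ, 0 < c ∧ 0 < C ∧ 0 < c' ∧
    ∀ x : ℝ, x0 ≤ x → ∀ L : ℕ, C * Real.log x ≤ L → (L : ℝ) ≤ x ^ c' →
      (((Icc 1 L).filter fun m => t ∣ m ∧ ∀ i j : Fin 4, i < j →
        (((Icc 1 ⌊x⌋₊).filter fun N => N.Prime ∧ (N + 2 * ((w j - w i) * m)).Prime).card : ℝ) <
          c * x / Real.log x ^ 2).card : ℝ) ≤ e * L := by
  obtain ⟨de, L0, hde, hk4⟩ := qd4 w hw hw0 t ht e he
  obtain ⟨D, hDD⟩ : ∃ D : ℕ, D = 2 := ⟨_, rfl⟩
  have hD : 0 < D := by omega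
  have hD2 : 2 ∣ D := by rw [hDD]
  have hD0 : (0 : ℝ) < D := by exact_mod_cast hD
  have hw3 : 1 ≤ w 3 := by
    have h1 : w 0 < w 3 := hw (by decide)
    omega
  have hw3r : (1 : ℝ) ≤ w 3 := by exact_mod_cast hw3
  obtain ⟨e2, he2⟩ : ∃ e2 : ℝ, e2 = min (1 / 10000) (de / (10 ^ 9 * D)) := ⟨_, rfl⟩
  have he20 : 0 < e2 := by rw [he2]; positivity
  have he2a : e2 ≤ 1 / 10000 := by rw [he2]; exact min_le_left _ _
  have he2b : 368640000 * D * e2 < de := by
    have h1 : e2 ≤ de / (10 ^ 9 * D) := by rw [he2]; exact min_le_right _ _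
    rw [le_div_iff₀ (by positivity)] at h1
    have h2 : 0 < e2 * D := by positivity
    linarith
  obtain ⟨Q, hQ, hq⟩ := prime_clique 2 (by norm_num) (1 - e2) e2 (1 / 2) (by linarith) (by linarith)
    he20 (by norm_num) 4
  obtain ⟨c, C, c', x0, hc, hC, hc', hpc⟩ := hq Q hQ dvd_rfl
  obtain ⟨x1, hx1⟩ := fst_all Q hQ e2 he20
  have hQ0 : (0 : ℝ) < Q := by exact_mod_cast hQ
  obtain ⟨c2, hc2⟩ : ∃ c2 : ℝ, c2 = min c' (1 / 2) := ⟨_, rfl⟩
  have hc20 : 0 < c2 := by rw [hc2]; positivity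
  have hev : ∀ᶠ x : ℝ in Filter.atTop, 400 * (D : ℝ) * w 3 ≤ x ^ (c2 / 2) ∧
      x ^ (1 / 2 : ℝ) ≤ c / (4 * Q) * x / Real.log x ^ 2 ∧ 4 * Q ≤ x ∧ 1 ≤ Real.log x := by
    have e1 := (tendsto_rpow_atTop (half_pos hc20)).eventually_ge_atTop (400 * (D : ℝ) * w 3)
    have e3 := (isLittleO_log_rpow_atTop (show (0 : ℝ) < 1 / 4 by norm_num)).bound
      (show 0 < Real.sqrt (c / (4 * Q)) by positivity)
    filter_upwards [e1, e3, Filter.eventually_ge_atTop (4 * (Q : ℝ)),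
      Real.tendsto_log_atTop.eventually_ge_atTop 1, Filter.eventually_gt_atTop 0] with x h1 h2 h3 h4 h5
    refine ⟨h1, ?_, h3, h4⟩
    rw [le_div_iff₀ (by positivity)]
    rw [Real.norm_eq_abs, Real.norm_eq_abs, abs_of_nonneg (by linarith : (0 : ℝ) ≤ Real.log x),
      abs_of_nonneg (by positivity : (0 : ℝ) ≤ x ^ (1 / 4 : ℝ))] at h2
    calc x ^ (1 / 2 : ℝ) * Real.log x ^ 2 ≤
        x ^ (1 / 2 : ℝ) * (Real.sqrt (c / (4 * Q)) * x ^ (1 / 4 : ℝ)) ^ 2 := by gcongr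
      _ = c / (4 * Q) * (x ^ (1 / 2 : ℝ) * (x ^ (1 / 4 : ℝ) * x ^ (1 / 4 : ℝ))) := by
          rw [mul_pow, Real.sq_sqrt (by positivity)]
          ring
      _ = c / (4 * Q) * x := by
          rw [← Real.rpow_add h5, ← Real.rpow_add h5]
          norm_num
  obtain ⟨x2, hx2⟩ := Filter.eventually_atTop.1 hev
  refine ⟨c / (4 * Q), C + 2 * Q + L0, c2 / 2, max x0 (max x1 x2), by positivity, by positivity,
    by positivity, ?_⟩
  intro x hx L0' hL1 hL2
  obtain ⟨L, hLdef⟩ : ∃ L : ℕ, L = w 3 * L0' := ⟨_, rfl⟩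
  have hLr : (L : ℝ) = w 3 * L0' := by rw [hLdef]; push_cast; ring
  have hLL' : (L0' : ℝ) ≤ L := by
    rw [hLr]
    nlinarith [(Nat.cast_nonneg L0' : (0 : ℝ) ≤ L0')]
  have hxa : x0 ≤ x := (le_max_left _ _).trans hx
  have hxb : x1 ≤ x := (le_max_left _ _).trans ((le_max_right _ _).trans hx)
  obtain ⟨hx400, hxsq, hxQ, hxlog⟩ := hx2 x ((le_max_right _ _).trans ((le_max_right _ _).trans hx))
  have hx0 : 0 < x := by linarith
  have hxone : 1 ≤ x := by
    have : (1 : ℝ) ≤ Q := by exact_mod_cast hQ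
    linarith
  by_contra hcon
  push Not at hcon
  have hL3' : C + 2 * Q + L0 ≤ L0' := by
    refine le_trans ?_ hL1
    have : 0 ≤ C + 2 * Q + L0 := by positivity
    nlinarith
  have hL3 : C + 2 * Q + L0 ≤ L := hL3'.trans hLL'
  have hLC : C * Real.log x ≤ L := by
    refine le_trans ?_ (hL1.trans hLL')
    have : 0 ≤ (2 * Q + L0) * Real.log x := by positivity
    linarith
  have hLL0 : L0 ≤ L0' := by
    have : (L0 : ℝ) ≤ L0' := by
      have : (0 : ℝ) ≤ 2 * Q := by positivity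
      linarith
    exact_mod_cast this
  have hLpos : (0 : ℝ) < L := by linarith [(Nat.cast_nonneg L0 : (0 : ℝ) ≤ L0)]
  have hLQ : 2 ≤ (L : ℝ) / Q := by
    rw [le_div_iff₀ hQ0]
    linarith [(Nat.cast_nonneg L0 : (0 : ℝ) ≤ L0)]
  obtain ⟨n, hn⟩ : ∃ n : ℕ, n = 400 * D * L := ⟨_, rfl⟩
  have hnr : (n : ℝ) = 400 * D * L := by rw [hn]; push_cast; ring
  have hD1 : (1 : ℝ) ≤ D := by exact_mod_cast hD
  have hLn : (L : ℝ) ≤ n := by
    rw [hnr]
    nlinarith
  have hnc2 : (n : ℝ) ≤ x ^ c2 := by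
    rw [hnr]
    calc 400 * (D : ℝ) * L = 400 * (D : ℝ) * w 3 * L0' := by rw [hLr]; ring
      _ ≤ x ^ (c2 / 2) * x ^ (c2 / 2) := by gcongr
      _ = x ^ c2 := by
          rw [← Real.rpow_add hx0]
          congr 1
          ring
  have hnc' : (n : ℝ) ≤ x ^ c' :=
    hnc2.trans (Real.rpow_le_rpow_of_exponent_le hxone (by rw [hc2]; exact min_le_left _ _))
  have hnhalf : (n : ℝ) ≤ x ^ (1 / 2 : ℝ) :=
    hnc2.trans (Real.rpow_le_rpow_of_exponent_le hxone (by rw [hc2]; exact min_le_right _ _))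
  have hy : 600 ≤ (n : ℝ) / Q := by
    have : (n : ℝ) / Q = 400 * D * (L / Q) := by rw [hnr]; ring
    rw [this]
    nlinarith
  obtain ⟨A0, hA0⟩ : ∃ A0 : Finset ℕ, A0 = (Icc 1 L0').filter fun m => t ∣ m ∧ ∀ i j : Fin 4, i < j →
        (((Icc 1 ⌊x⌋₊).filter fun N => N.Prime ∧ (N + 2 * ((w j - w i) * m)).Prime).card : ℝ) <
          c / (4 * Q) * x / Real.log x ^ 2 := ⟨_, rfl⟩
  rw [← hA0] at hcon
  have hA0s : A0 ⊆ Icc 1 L0' := by rw [hA0]; exact filter_subset _ _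
  have hA0t : ∀ m ∈ A0, t ∣ m := by
    intro m hm
    rw [hA0, mem_filter] at hm
    exact hm.2.1
  obtain ⟨U, hU⟩ : ∃ U : Finset ℕ, U = (((univ : Finset (Fin 4)) ×ˢ (univ : Finset (Fin 4)) ×ˢ A0).filter
      fun z => z.1 < z.2.1).image fun z => (w z.2.1 - w z.1) * z.2.2 := ⟨_, rfl⟩
  have hUm : ∀ u, u ∈ U ↔ ∃ i j : Fin 4, i < j ∧ ∃ m ∈ A0, u = (w j - w i) * m := by
    intro u
    rw [hU, mem_image]
    constructor
    · rintro ⟨⟨i, j, m⟩, hz, rfl⟩
      rw [mem_filter, mem_product, mem_product] at hz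
      exact ⟨i, j, hz.2, m, hz.1.2.2, rfl⟩
    · rintro ⟨i, j, hij, m, hm, rfl⟩
      refine ⟨⟨i, j, m⟩, ?_, rfl⟩
      rw [mem_filter, mem_product, mem_product]
      exact ⟨⟨mem_univ _, mem_univ _, hm⟩, hij⟩
  obtain ⟨hUs, hT1c'⟩ := hk4 L0' hLL0 A0 hA0s hA0t hcon.le U hUm
  rw [← hLdef] at hUs hT1c'
  have hUp : ∀ u ∈ U, (((Icc 1 ⌊x⌋₊).filter fun N => N.Prime ∧ (N + D * u).Prime).card : ℝ) <
      c / (4 * Q) * x / Real.log x ^ 2 := by
    intro u hu
    obtain ⟨i, j, hij, m, hm, rfl⟩ := (hUm u).1 hu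
    rw [hA0, mem_filter] at hm
    rw [hDD]
    exact hm.2.2 i j hij
  obtain ⟨T1, hT1⟩ : ∃ T1 : Finset (ℕ × ℕ × ℕ), T1 = (Icc 1 L ×ˢ Icc 1 L ×ˢ Icc 1 L).filter fun z =>
    Q4 U z ∧ ((univ : Finset (Fin 4)).image fun i => pt 1 z i % 3).card ≤ 2 := ⟨_, rfl⟩
  have hT1c : de * (L : ℝ) ^ 3 ≤ T1.card := by
    rw [hT1]
    exact hT1c'
  have hT1ne : T1.Nonempty := by
    rw [← card_pos]
    have : (0 : ℝ) < T1.card := lt_of_lt_of_le (by positivity) hT1c
    exact_mod_cast this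
  obtain ⟨z0, t0, hz1, hz2⟩ := cls4 D Q hD2 hQ T1 hT1ne (by
    intro z hz
    rw [hT1, mem_filter] at hz
    exact hz.2.2)
  obtain ⟨T, hT⟩ : ∃ T : Finset (ℕ × ℕ × ℕ), T = T1.filter fun z => z.1 ≡ z0.1 [MOD Q] ∧
    z.2.1 ≡ z0.2.1 [MOD Q] ∧ z.2.2 ≡ z0.2.2 [MOD Q] := ⟨_, rfl⟩
  rw [← hT] at hz1
  have hTc : de * ((L : ℝ) / Q) ^ 3 ≤ T.card := by
    refine le_trans ?_ hz1
    rw [le_div_iff₀ (by positivity)]
    refine le_trans (le_of_eq ?_) hT1c
    field_simp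
  obtain ⟨V, hV⟩ : ∃ V : Finset ℕ, V = (Icc 1 n).filter fun v => ∃ i, v ≡ t0 + pt D z0 i [MOD Q] :=
    ⟨_, rfl⟩
  obtain ⟨co, hcod⟩ : ∃ co : ℕ → Fin 4, co = fun v =>
    Classical.epsilon (fun i : Fin 4 => v ≡ t0 + pt D z0 i [MOD Q]) := ⟨_, rfl⟩
  have hco : ∀ v : ℕ, (∃ i, v ≡ t0 + pt D z0 i [MOD Q]) → v ≡ t0 + pt D z0 (co v) [MOD Q] := by
    intro v hv
    rw [hcod]
    exact Classical.epsilon_spec hv
  have hco2 : ∀ v v' : ℕ, v ≡ v' [MOD Q] → co v = co v' := by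
    intro v v' hv
    rw [hcod]
    have : (fun i : Fin 4 => v ≡ t0 + pt D z0 i [MOD Q]) =
        fun i : Fin 4 => v' ≡ t0 + pt D z0 i [MOD Q] := by
      funext i
      exact propext ⟨fun h => hv.symm.trans h, fun h => hv.trans h⟩
    simp only [this]
  obtain ⟨A, hA⟩ : ∃ A : Finset ℕ, A = (Icc 1 (⌊x⌋₊ + n)).filter Nat.Prime := ⟨_, rfl⟩
  have hAp : ∀ p ∈ A, p.Prime := by
    intro p hp
    rw [hA, mem_filter] at hp
    exact hp.2
  have hVm : ∀ v ∈ V, 1 ≤ v ∧ v ≤ n ∧ Nat.Coprime v Q := by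
    intro v hv
    rw [hV, mem_filter, mem_Icc] at hv
    obtain ⟨⟨h1, h2⟩, i, h3⟩ := hv
    refine ⟨h1, h2, ?_⟩
    have h4 := hz2 i
    unfold Nat.Coprime at h4 ⊢
    rw [h3.gcd_eq]
    exact h4
  have hVcard : (1 / 2 : ℝ) * n ≤ Q * (V.card : ℝ) := by
    have h1 : ((Icc 1 n).filter fun v => v ≡ t0 + pt D z0 0 [MOD Q]) ⊆ V := by
      intro v hv
      rw [mem_filter] at hv
      rw [hV, mem_filter]
      exact ⟨hv.1, 0, hv.2⟩
    have h2 : (n : ℝ) / Q - 1 ≤ V.card :=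
      (p4_card n Q _ hQ).1.trans (by exact_mod_cast card_le_card h1)
    have h3 : (n : ℝ) / Q / 2 ≤ V.card := by linarith
    calc (1 / 2 : ℝ) * n = Q * (n / Q / 2) := by field_simp
      _ ≤ _ := by gcongr
  obtain ⟨S, hS, hS1, hS2⟩ := hpc x hxa n (hLC.trans hLn) hnc' V hVm (fun i => t0 + pt D z0 i) co
    (by
      intro v hv
      rw [hV, mem_filter] at hv
      exact hco v hv.2) hVcard A hAp (by
    intro v hv
    have h1 := hx1 x hxb v ((by exact_mod_cast (hVm v hv).2.1 : (v : ℝ) ≤ n).trans hnhalf) (hVm v hv).2.2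
    refine h1.trans ?_
    have h2 : ((Om x Q).filter fun N => (N + v).Prime).card ≤ ((Om x Q).filter fun N => N + v ∈ A).card := by
      refine card_le_card ?_
      intro N hN
      rw [mem_filter] at hN ⊢
      refine ⟨hN.1, ?_⟩
      rw [hA, mem_filter, mem_Icc]
      have h3 := hN.1
      unfold Om at h3
      rw [mem_filter, mem_Icc] at h3
      have h4 := (hVm v hv).2.1
      exact ⟨⟨by omega, by omega⟩, hN.2⟩
    exact_mod_cast h2)
  have hOne : (Om x Q).Nonempty := by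
    rw [← card_pos]
    have h1 := p4_om x Q hQ hxQ
    have : (0 : ℝ) < (Om x Q).card := lt_of_lt_of_le (by positivity) h1
    exact_mod_cast this
  refine p4_core D L Q hD hQ de e2 hde he20 he2a he2b n hn hy (by linarith) U hUs T ?_ hTc z0 t0 ?_
    (Om x Q) hOne V hV co hco hco2 S hS hS1 ?_
  · intro z hz
    rw [hT, mem_filter, hT1, mem_filter] at hz
    exact hz.1.2.1
  · intro z hz
    rw [hT, mem_filter] at hz
    exact hz.2
  · have hpair : ∀ N, (((S N ×ˢ S N).filter fun w => ∃ u ∈ U, w.2 = w.1 + D * u).card : ℝ) ≤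
        (((Fintype.piFinset fun _ : Fin 2 => S N).filter
            fun y => ¬ PopA x Q A c y).card : ℝ) := by
      intro N
      have h1 : ((S N ×ˢ S N).filter fun w => ∃ u ∈ U, w.2 = w.1 + D * u).card ≤
        ((Fintype.piFinset fun _ : Fin 2 => S N).filter
            fun y => ¬ PopA x Q A c y).card := by
        refine card_le_card_of_injOn (fun w : ℕ × ℕ => (![w.1, w.2] : Fin 2 → ℕ)) ?_ ?_
        · intro w hw
          rw [mem_coe, mem_filter, mem_product] at hw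
          obtain ⟨⟨h2, h3⟩, u, hu, h4⟩ := hw
          rw [mem_coe, mem_filter, Fintype.mem_piFinset]
          refine ⟨?_, ?_⟩
          · intro i
            fin_cases i
            · exact h2
            · exact h3
          · simp only [h4]
            have h5 : w.1 ≤ n := (hVm _ (hS N h2)).2.1
            refine p4_nonpop D Q n hQ c x hc hxQ hxlog (hnhalf.trans hxsq) A hAp w.1 u h5 ?_
            exact hUp u hu
        · intro a _ b _ hab
          have h2 := congrFun hab 0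
          have h3 := congrFun hab 1
          simp only [Matrix.cons_val_zero, Matrix.cons_val_one] at h2 h3
          exact Prod.ext h2 h3
      exact_mod_cast h1
    have hnV : ∀ N, (((Fintype.piFinset fun _ : Fin 2 => S N).filter
            fun y => ¬ PopA x Q A c y).card : ℝ) ≤ (V.card : ℝ) ^ 2 := by
      intro N
      have h1 : ((Fintype.piFinset fun _ : Fin 2 => S N).filter
            fun y => ¬ PopA x Q A c y).card ≤ V.card ^ 2 := by
        refine (card_filter_le _ _).trans ?_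
        rw [Fintype.card_piFinset]
        simp only [prod_const, card_univ, Fintype.card_fin]
        exact Nat.pow_le_pow_left (card_le_card (hS N)) 2
      exact_mod_cast h1
    calc _ ≤ ∑ N ∈ Om x Q, (e2 * (V.card : ℝ) ^ 2 + if e2 * (V.card : ℝ) ^ 2 ≤
              (((Fintype.piFinset fun _ : Fin 2 => S N).filter
            fun y => ¬ PopA x Q A c y).card : ℝ) then (V.card : ℝ) ^ 2 else 0) := by
          refine sum_le_sum fun N _ => ?_
          split_ifs with h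
          · have h1 := hpair N
            have h2 := hnV N
            have h3 : 0 ≤ e2 * (V.card : ℝ) ^ 2 := by positivity
            linarith
          · push Not at h
            have h1 := hpair N
            linarith
      _ = e2 * (V.card : ℝ) ^ 2 * (Om x Q).card + (((Om x Q).filter fun N => e2 * (V.card : ℝ) ^ 2 ≤
              (((Fintype.piFinset fun _ : Fin 2 => S N).filter
            fun y => ¬ PopA x Q A c y).card : ℝ)).card : ℝ) * (V.card : ℝ) ^ 2 := by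
          rw [sum_add_distrib, sum_const, nsmul_eq_mul, ← sum_filter, sum_const, nsmul_eq_mul]
          ring
      _ ≤ e2 * (V.card : ℝ) ^ 2 * (Om x Q).card + (e2 * (Om x Q).card) * (V.card : ℝ) ^ 2 := by
          gcongr
      _ = _ := by ring

end Pool.Agent.H51.PM
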