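import Pool.Agent.H51.PM.Two
import Pool.Agent.H51.PM.P4

/-!
[H51 PM MG]  THEOREM P4 at all scales.

`all4`: for `m ≤ L`, from `two4` (`A = 2`, `cons = true` if `L ≤ lam log X`, else `cons = false`) and `part4` (`L > (log X)^2`), as in `H99/RO/Mg.lean`.
-/

namespace Pool.Agent.H51.PM

open Finset Filter Pool.Agent.H61.UL

/-- the facts about `X` which are used for `L > (log X)^2` -/
private theorem ev_mg (lam C x0 : ℝ) : ∀ᶠ X : ℕ in atTop, lam ≤ Real.log X ∧
    C ≤ Real.log X ∧ 2 ≤ Real.log X ∧ x0 ≤ (X : ℝ) ∧ (1 : ℝ) ≤ X := by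
  have h := Real.tendsto_log_atTop.comp (tendsto_natCast_atTop_atTop (R := ℝ))
  have h1 := h.eventually_ge_atTop lam
  have h2 := h.eventually_ge_atTop C
  have h3 := h.eventually_ge_atTop 2
  have h4 := (tendsto_natCast_atTop_atTop (R := ℝ)).eventually_ge_atTop x0
  have h5 := (tendsto_natCast_atTop_atTop (R := ℝ)).eventually_ge_atTop 1
  filter_upwards [h1, h2, h3, h4, h5] with X a1 a2 a3 a4 a5
  exact ⟨a1, a2, a3, a4, a5⟩

open Classical in
theorem all4 (hU : BlkU) (w : Fin 4 → ℕ) (hw : StrictMono w) (hw0 : w 0 = 0) (t : ℕ) (ht : Ms w t) :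
    ∃ K : ℕ, ∀ ε : ℝ, 0 < ε → ∃ (c lam δ : ℝ) (L0 X0 : ℕ), 0 < c ∧ 0 < lam ∧ 0 < δ ∧
    ∀ X : ℕ, X0 ≤ X → ∀ L : ℕ, L0 ≤ L → (L : ℝ) ≤ (X : ℝ) ^ δ →
      (((Icc 1 L).filter (fun m => t ∣ m ∧ ∀ i j : Fin 4, i < j →
        (((Icc 1 X).filter fun n => n.Prime ∧ (n + 2 * ((w j - w i) * m)).Prime ∧
            ((L : ℝ) ≤ lam * Real.log X → ∀ q : ℕ, n < q → q < n + 2 * ((w j - w i) * m) →
              ¬ q.Prime)).card : ℝ) <
          c * (min 1 ((L : ℝ) / Real.log X)) ^ K * (X / Real.log X ^ 2))).card : ℝ) ≤ ε * L := by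
  obtain ⟨K, hK⟩ := two4 hU w hw hw0 t ht
  refine ⟨K, fun ε hε => ?_⟩
  obtain ⟨c1, lam, L1, X1, hc1, hlam, h1⟩ := hK true ε 2 hε (by norm_num)
  obtain ⟨c2, lam2, L2, X2, hc2, -, h2⟩ := hK false ε 2 hε (by norm_num)
  obtain ⟨c3, C, δ, x0, hc3, hC, hδ, h3⟩ := part4 w hw hw0 t ht ε hε
  obtain ⟨X0, hX0⟩ := eventually_atTop.1 (ev_mg lam C x0)
  refine ⟨min c1 (min c2 c3), lam, δ, max L1 (max L2 1), max X1 (max X2 X0),
    by positivity, hlam, hδ, fun X hX L hL hLδ => ?_⟩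
  have b1 : L1 ≤ L := (le_max_left _ _).trans hL
  have b2 : L2 ≤ L := (le_max_left _ _).trans ((le_max_right _ _).trans hL)
  have b3 : 1 ≤ L := (le_max_right _ _).trans ((le_max_right _ _).trans hL)
  have d1 : X1 ≤ X := (le_max_left _ _).trans hX
  have d2 : X2 ≤ X := (le_max_left _ _).trans ((le_max_right _ _).trans hX)
  have d0 : X0 ≤ X := (le_max_right _ _).trans ((le_max_right _ _).trans hX)
  obtain ⟨a1, a2, a3, a4, a5⟩ := hX0 X d0
  have hlog : 0 < Real.log X := by linarith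
  have hL0 : (0 : ℝ) < L := by exact_mod_cast b3
  have hmin0 : 0 ≤ min 1 ((L : ℝ) / Real.log X) := le_min zero_le_one (by positivity)
  have hmin1 : (min 1 ((L : ℝ) / Real.log X)) ^ K ≤ 1 := pow_le_one₀ hmin0 (min_le_left _ _)
  have hmK : 0 ≤ (min 1 ((L : ℝ) / Real.log X)) ^ K := pow_nonneg hmin0 K
  have hXl : 0 ≤ (X : ℝ) / Real.log X ^ 2 := by positivity
  rcases le_or_gt (L : ℝ) (Real.log X ^ (2 : ℝ)) with hA | hA
  · rcases le_or_gt (L : ℝ) (lam * Real.log X) with hB | hB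
    · refine le_trans ?_ (h1 X d1 L b1 hA (fun _ => hB))
      rw [Nat.cast_le]
      apply card_le_card
      intro m hm
      rw [mem_filter] at hm ⊢
      refine ⟨hm.1, hm.2.1, fun i j hij => ?_⟩
      have e1 : min c1 (min c2 c3) * (min 1 ((L : ℝ) / Real.log X)) ^ K * (X / Real.log X ^ 2) ≤
          c1 * (min 1 ((L : ℝ) / Real.log X)) ^ K * (X / Real.log X ^ 2) := by
        apply mul_le_mul_of_nonneg_right _ hXl
        exact mul_le_mul_of_nonneg_right (min_le_left _ _) hmK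
      refine lt_of_le_of_lt ?_ (lt_of_lt_of_le (hm.2.2 i j hij) e1)
      unfold Pool.Agent.H61.GD.cq
      rw [Nat.cast_le]
      apply card_le_card
      intro n hn
      rw [mem_filter] at hn ⊢
      exact ⟨hn.1, hn.2.1, hn.2.2.1, fun _ => hn.2.2.2 rfl⟩
    · refine le_trans ?_ (h2 X d2 L b2 hA (fun h => by simp at h))
      rw [Nat.cast_le]
      apply card_le_card
      intro m hm
      rw [mem_filter] at hm ⊢
      refine ⟨hm.1, hm.2.1, fun i j hij => ?_⟩
      have e1 : min c1 (min c2 c3) * (min 1 ((L : ℝ) / Real.log X)) ^ K * (X / Real.log X ^ 2) ≤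
          c2 * (min 1 ((L : ℝ) / Real.log X)) ^ K * (X / Real.log X ^ 2) := by
        apply mul_le_mul_of_nonneg_right _ hXl
        exact mul_le_mul_of_nonneg_right ((min_le_right _ _).trans (min_le_left _ _)) hmK
      refine lt_of_le_of_lt ?_ (lt_of_lt_of_le (hm.2.2 i j hij) e1)
      unfold Pool.Agent.H61.GD.cq
      rw [Nat.cast_le]
      apply card_le_card
      intro n hn
      rw [mem_filter] at hn ⊢
      exact ⟨hn.1, hn.2.1, hn.2.2.1, fun h => absurd h (not_le.2 hB)⟩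
  · rw [Real.rpow_two] at hA
    have hvac : ¬ ((L : ℝ) ≤ lam * Real.log X) := by
      intro h
      nlinarith
    have hCL : C * Real.log X ≤ L := by nlinarith
    refine le_trans ?_ (h3 X a4 L hCL hLδ)
    rw [Nat.cast_le, Nat.floor_natCast]
    apply card_le_card
    intro m hm
    rw [mem_filter] at hm ⊢
    refine ⟨hm.1, hm.2.1, fun i j hij => ?_⟩
    have e1 : min c1 (min c2 c3) * (min 1 ((L : ℝ) / Real.log X)) ^ K * (X / Real.log X ^ 2) ≤
        c3 * X / Real.log X ^ 2 := by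
      rw [mul_div_assoc]
      apply mul_le_mul_of_nonneg_right _ hXl
      calc min c1 (min c2 c3) * (min 1 ((L : ℝ) / Real.log X)) ^ K ≤ min c1 (min c2 c3) * 1 :=
            mul_le_mul_of_nonneg_left hmin1 (by positivity)
        _ ≤ c3 := by
            rw [mul_one]
            exact (min_le_right _ _).trans (min_le_right _ _)
    refine lt_of_le_of_lt ?_ (lt_of_lt_of_le (hm.2.2 i j hij) e1)
    rw [Nat.cast_le]
    apply card_le_card
    intro n hn
    rw [mem_filter] at hn ⊢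
    exact ⟨hn.1, hn.2.1, hn.2.2, fun h => absurd h hvac⟩

end Pool.Agent.H51.PM
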