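import Pool.Agent.H21.GH.Rem

/-!
[H51 PM TRI]  Four points in dilated sets: if `A ⊆ [1, T]` is dense and `0 = w 0 < w 1 < w 2 < w 3`, then for a positive proportion
of the triples `(x, y, n)` the differences of `0, x, y, n` lie in the dilates `(w j - w i) A`.

Proof (Ruzsa-Szemerédi with `K_4`): in the graph on four copies of `[0, 2 w 3 T]` with edges `z_j - z_i ∈ (w j - w i) A` the complete
graphs `(z, z + w 1 m, z + w 2 m, z + w 3 m)`, `m ∈ A`, are edge-disjoint; `k4_removal`.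
-/

namespace Pool.Agent.H51.PM

open Finset

/-- `n` is `a` times an element of `A` -/
def Mu (A : Finset ℕ) (a n : ℕ) : Prop := ∃ m ∈ A, n = a * m

/-- the differences of `0, x, y, n` lie in the dilates `(w j - w i) A` -/
def Qd (A : Finset ℕ) (w : Fin 4 → ℕ) (q : ℕ × ℕ × ℕ) : Prop :=
  q.1 < q.2.1 ∧ q.2.1 < q.2.2 ∧ Mu A (w 1 - w 0) q.1 ∧ Mu A (w 2 - w 0) q.2.1 ∧
    Mu A (w 3 - w 0) q.2.2 ∧ Mu A (w 2 - w 1) (q.2.1 - q.1) ∧ Mu A (w 3 - w 1) (q.2.2 - q.1) ∧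
    Mu A (w 3 - w 2) (q.2.2 - q.2.1)

/-- one direction of the edges -/
def Ed (A : Finset ℕ) (w : Fin 4 → ℕ) (N : ℕ) (p q : Fin 4 × Fin N) : Prop :=
  p.1 < q.1 ∧ ∃ m ∈ A, (q.2 : ℕ) = p.2 + (w q.1 - w p.1) * m

/-- the graph -/
def Gr (A : Finset ℕ) (w : Fin 4 → ℕ) (N : ℕ) : SimpleGraph (Fin 4 × Fin N) where
  Adj p q := Ed A w N p q ∨ Ed A w N q p
  symm := ⟨fun _ _ h => Or.symm h⟩
  loopless := ⟨fun p h => by
    rcases h with h | h <;> exact absurd h.1 (lt_irrefl _)⟩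

/-- the position in part `j` -/
def zz {N : ℕ} (v : Fin 4 → Fin 4 × Fin N) (j : Fin 4) : ℕ :=
  ∑ i, if (v i).1 = j then ((v i).2 : ℕ) else 0

theorem gr_iff {A : Finset ℕ} {w : Fin 4 → ℕ} {N : ℕ} {p q : Fin 4 × Fin N} :
    (Gr A w N).Adj p q ↔ (Ed A w N p q ∨ Ed A w N q p) := Iff.rfl

theorem gr_ne {A : Finset ℕ} {w : Fin 4 → ℕ} {N : ℕ} {p q : Fin 4 × Fin N}
    (h : (Gr A w N).Adj p q) : p.1 ≠ q.1 := by
  rcases gr_iff.1 h with h | h
  · exact h.1.ne
  · exact h.1.ne'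

theorem gr_ed {A : Finset ℕ} {w : Fin 4 → ℕ} {N : ℕ} {p q : Fin 4 × Fin N}
    (h : (Gr A w N).Adj p q) (hpq : p.1 < q.1) :
    ∃ m ∈ A, (q.2 : ℕ) = p.2 + (w q.1 - w p.1) * m := by
  rcases gr_iff.1 h with h | h
  · exact h.2
  · exact absurd hpq (not_lt.2 h.1.le)

/-- a complete graph on four vertices -/
def Cl (A : Finset ℕ) (w : Fin 4 → ℕ) (N : ℕ) (v : Fin 4 → Fin 4 × Fin N) : Prop :=
  ∀ i j, i < j → (Gr A w N).Adj (v i) (v j)

theorem cl_inj {A : Finset ℕ} {w : Fin 4 → ℕ} {N : ℕ} {v : Fin 4 → Fin 4 × Fin N}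
    (h : Cl A w N v) : Function.Injective fun i => (v i).1 := by
  intro i j hij
  by_contra hne
  rcases lt_or_gt_of_ne hne with h1 | h1
  · exact gr_ne (h i j h1) hij
  · exact gr_ne (h j i h1) hij.symm

theorem cl_zz {A : Finset ℕ} {w : Fin 4 → ℕ} {N : ℕ} {v : Fin 4 → Fin 4 × Fin N}
    (h : Cl A w N v) (i : Fin 4) : zz v (v i).1 = (v i).2 := by
  unfold zz
  rw [sum_eq_single i]
  · rw [if_pos rfl]
  · intro k _ hk
    rw [if_neg]
    intro h1
    exact hk (cl_inj h h1)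
  · intro h1
    exact absurd (mem_univ i) h1

theorem cl_ed {A : Finset ℕ} {w : Fin 4 → ℕ} {N : ℕ} {v : Fin 4 → Fin 4 × Fin N}
    (h : Cl A w N v) (a b : Fin 4) (hab : a < b) :
    ∃ m ∈ A, zz v b = zz v a + (w b - w a) * m := by
  have hs : Function.Surjective fun i => (v i).1 :=
    Finite.injective_iff_surjective.1 (cl_inj h)
  obtain ⟨i, hi⟩ := hs a
  obtain ⟨j, hj⟩ := hs b
  simp only at hi hj
  have hij : i ≠ j := by
    rintro rfl
    rw [hi] at hj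
    exact hab.ne hj
  have hadj : (Gr A w N).Adj (v i) (v j) := by
    rcases lt_or_gt_of_ne hij with h1 | h1
    · exact h i j h1
    · exact (h j i h1).symm
  obtain ⟨m, hm, h1⟩ := gr_ed hadj (by rw [hi, hj]; exact hab)
  refine ⟨m, hm, ?_⟩
  have h2 := cl_zz h i
  have h3 := cl_zz h j
  rw [hi] at h2
  rw [hj] at h3
  rw [h2, h3, h1, hi, hj]

theorem cl_lt {A : Finset ℕ} {w : Fin 4 → ℕ} {N : ℕ} {v : Fin 4 → Fin 4 × Fin N}
    (h : Cl A w N v) (a : Fin 4) : zz v a < N := by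
  have hs : Function.Surjective fun i => (v i).1 :=
    Finite.injective_iff_surjective.1 (cl_inj h)
  obtain ⟨i, hi⟩ := hs a
  simp only at hi
  have h2 := cl_zz h i
  rw [hi] at h2
  rw [h2]
  exact (v i).2.isLt

/-- the data of a complete graph -/
def Ph {N : ℕ} (v : Fin 4 → Fin 4 × Fin N) : (Fin 4 → Fin 4) × ℕ × (ℕ × ℕ × ℕ) :=
  (fun i => (v i).1, zz v 0, (zz v 1 - zz v 0, zz v 2 - zz v 0, zz v 3 - zz v 0))

theorem ph_qd {A : Finset ℕ} {w : Fin 4 → ℕ} {N : ℕ} (hw : StrictMono w) (hA : ∀ m ∈ A, 0 < m)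
    {v : Fin 4 → Fin 4 × Fin N} (h : Cl A w N v) :
    Qd A w (zz v 1 - zz v 0, zz v 2 - zz v 0, zz v 3 - zz v 0) ∧
      zz v 0 < zz v 1 ∧ zz v 1 < zz v 2 ∧ zz v 2 < zz v 3 := by
  obtain ⟨m1, h1, e1⟩ := cl_ed h 0 1 (by decide)
  obtain ⟨m2, h2, e2⟩ := cl_ed h 0 2 (by decide)
  obtain ⟨m3, h3, e3⟩ := cl_ed h 0 3 (by decide)
  obtain ⟨m4, h4, e4⟩ := cl_ed h 1 2 (by decide)
  obtain ⟨m5, h5, e5⟩ := cl_ed h 1 3 (by decide)
  obtain ⟨m6, h6, e6⟩ := cl_ed h 2 3 (by decide)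
  have p1 : 0 < (w 1 - w 0) * m1 :=
    Nat.mul_pos (Nat.sub_pos_of_lt (hw (by decide))) (hA _ h1)
  have p4 : 0 < (w 2 - w 1) * m4 :=
    Nat.mul_pos (Nat.sub_pos_of_lt (hw (by decide))) (hA _ h4)
  have p6 : 0 < (w 3 - w 2) * m6 :=
    Nat.mul_pos (Nat.sub_pos_of_lt (hw (by decide))) (hA _ h6)
  refine ⟨⟨?_, ?_, ⟨m1, h1, ?_⟩, ⟨m2, h2, ?_⟩, ⟨m3, h3, ?_⟩, ⟨m4, h4, ?_⟩, ⟨m5, h5, ?_⟩, ⟨m6, h6, ?_⟩⟩,
    by omega, by omega, by omega⟩
  all_goals simp only
  all_goals omega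

theorem ph_inj {A : Finset ℕ} {w : Fin 4 → ℕ} {N : ℕ} (hw : StrictMono w) (hA : ∀ m ∈ A, 0 < m)
    {v u : Fin 4 → Fin 4 × Fin N} (h : Cl A w N v) (h' : Cl A w N u) (hvu : Ph v = Ph u) : v = u := by
  unfold Ph at hvu
  rw [Prod.mk.injEq, Prod.mk.injEq, Prod.mk.injEq, Prod.mk.injEq] at hvu
  obtain ⟨e1, e2, e3, e4, e5⟩ := hvu
  obtain ⟨-, a1, a2, a3⟩ := ph_qd hw hA h
  obtain ⟨-, b1, b2, b3⟩ := ph_qd hw hA h'
  have hz : ∀ j : Fin 4, zz v j = zz u j := by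
    have h4 : ∀ i : Fin 4, i = 0 ∨ i = 1 ∨ i = 2 ∨ i = 3 := by decide
    intro j
    rcases h4 j with rfl | rfl | rfl | rfl <;> omega
  funext i
  have h1 : (v i).1 = (u i).1 := congrFun e1 i
  refine Prod.ext h1 (Fin.ext ?_)
  rw [← cl_zz h i, ← cl_zz h' i, h1, hz]

open Classical in
theorem four_dil (w : Fin 4 → ℕ) (hw : StrictMono w) (hw0 : w 0 = 0) (ε : ℝ) (hε : 0 < ε) :
    ∃ c : ℝ, 0 < c ∧ ∃ T₀ : ℕ, ∀ T : ℕ, T₀ ≤ T → ∀ A : Finset ℕ, A ⊆ Icc 1 T →
      ε * T ≤ (A.card : ℝ) → c * (T : ℝ) ^ 3 ≤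
        (((range (2 * w 3 * T + 1) ×ˢ range (2 * w 3 * T + 1) ×ˢ range (2 * w 3 * T + 1)).filter
          (Qd A w)).card : ℝ) := by
  have hW : 0 < w 3 := by
    have h := hw (show (0 : Fin 4) < 3 by decide)
    omega
  have hWr : (1 : ℝ) ≤ w 3 := by exact_mod_cast hW
  obtain ⟨η, hη⟩ : ∃ η : ℝ, η = min 1 (ε / (200 * w 3)) := ⟨_, rfl⟩
  have hη0 : 0 < η := by
    rw [hη]
    positivity
  have hη1 : η ≤ 1 := by
    rw [hη]
    exact min_le_left _ _
  have hη2 : 200 * w 3 * η ≤ ε := by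
    have h : η ≤ ε / (200 * w 3) := by
      rw [hη]
      exact min_le_right _ _
    rw [le_div_iff₀ (by positivity)] at h
    linarith
  obtain ⟨c, n0, hc, hrem⟩ := Pool.Agent.H21.GH.k4_removal η hη0 hη1
  refine ⟨c * (8 * w 3) ^ 4 / (256 * (3 * w 3)), by positivity, n0 + 1, fun T hT A hA hAc => ?_⟩
  have hT0 : 0 < T := by omega
  have hTr : (1 : ℝ) ≤ T := by exact_mod_cast hT0
  have hApos : ∀ m ∈ A, 0 < m := fun m hm => (mem_Icc.1 (hA hm)).1
  have hAle : ∀ m ∈ A, m ≤ T := fun m hm => (mem_Icc.1 (hA hm)).2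
  obtain ⟨N, hN⟩ : ∃ N, N = 2 * w 3 * T + 1 := ⟨_, rfl⟩
  rw [← hN]
  have hNr : (N : ℝ) = 2 * w 3 * T + 1 := by
    rw [hN]
    push_cast
    ring
  have hWT : (1 : ℝ) ≤ w 3 * T := by nlinarith
  have hV : Fintype.card (Fin 4 × Fin N) = 4 * N := by
    rw [Fintype.card_prod, Fintype.card_fin, Fintype.card_fin]
  have hn0 : n0 ≤ Fintype.card (Fin 4 × Fin N) := by
    rw [hV, hN]
    have : T ≤ w 3 * T := Nat.le_mul_of_pos_left T hW
    nlinarith
  have hmany : c * (Fintype.card (Fin 4 × Fin N) : ℝ) ^ 4 ≤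
      (((univ : Finset (Fin 4 → Fin 4 × Fin N)).filter
        (fun v => ∀ i j, i < j → (Gr A w N).Adj (v i) (v j))).card : ℝ) := by
    by_contra hcon
    push Not at hcon
    obtain ⟨G', -, hG'2, hG'3⟩ := hrem (Fin 4 × Fin N) (Gr A w N) hn0 hcon
    -- the edge-disjoint complete graphs
    have hlt : ∀ z m : ℕ, z ≤ w 3 * T → m ∈ A → ∀ i : Fin 4, z + w i * m < N := by
      intro z m hz hm i
      have h1 : w i ≤ w 3 := hw.monotone (Fin.le_last i)
      have h2 : w i * m ≤ w 3 * T := Nat.mul_le_mul h1 (hAle m hm)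
      rw [hN]
      have h3 : 2 * w 3 * T = w 3 * T + w 3 * T := by ring
      omega
    have hpos : 0 < N := by omega
    let vt : ℕ × ℕ → Fin 4 → Fin 4 × Fin N := fun p i =>
      (i, ⟨(p.1 + w i * p.2) % N, Nat.mod_lt _ hpos⟩)
    have hvt : ∀ p ∈ range (w 3 * T + 1) ×ˢ A, ∀ i, (((vt p i).2 : Fin N) : ℕ) = p.1 + w i * p.2 := by
      intro p hp i
      rw [mem_product, mem_range] at hp
      exact Nat.mod_eq_of_lt (hlt p.1 p.2 (by omega) hp.2 i)
    have hadj : ∀ p ∈ range (w 3 * T + 1) ×ˢ A, ∀ i j : Fin 4, i < j →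
        (Gr A w N).Adj (vt p i) (vt p j) := by
      intro p hp i j hij
      refine gr_iff.2 (Or.inl ⟨hij, p.2, (mem_product.1 hp).2, ?_⟩)
      rw [hvt p hp i, hvt p hp j]
      change p.1 + w j * p.2 = p.1 + w i * p.2 + (w j - w i) * p.2
      have h1 : w i ≤ w j := hw.monotone hij.le
      rw [add_assoc, ← add_mul, Nat.add_sub_cancel' h1]
    have hbad : ∀ p, ∃ ij : Fin 4 × Fin 4, ij.1 < ij.2 ∧ ¬ G'.Adj (vt p ij.1) (vt p ij.2) := by
      intro p
      obtain ⟨i, j, h1, h2⟩ := hG'2 (vt p)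
      exact ⟨(i, j), h1, h2⟩
    choose b hb1 hb2 using hbad
    have hcard : (range (w 3 * T + 1) ×ˢ A).card ≤
        ((univ : Finset ((Fin 4 × Fin N) × (Fin 4 × Fin N))).filter
          (fun p => (Gr A w N).Adj p.1 p.2 ∧ ¬ G'.Adj p.1 p.2)).card := by
      refine card_le_card_of_injOn (fun p => (vt p (b p).1, vt p (b p).2)) ?_ ?_
      · intro p hp
        rw [mem_coe] at hp
        rw [mem_coe, mem_filter]
        exact ⟨mem_univ _, hadj p hp _ _ (hb1 p), hb2 p⟩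
      · intro p hp q hq hpq
        rw [mem_coe] at hp hq
        simp only [Prod.mk.injEq] at hpq
        obtain ⟨e1, e2⟩ := hpq
        have f1 : (vt p (b p).1).1 = (vt q (b q).1).1 := by rw [e1]
        have f2 : (vt p (b p).2).1 = (vt q (b q).2).1 := by rw [e2]
        change (b p).1 = (b q).1 at f1
        change (b p).2 = (b q).2 at f2
        have g1 : p.1 + w (b p).1 * p.2 = q.1 + w (b q).1 * q.2 := by
          rw [← hvt p hp, ← hvt q hq, e1]
        have g2 : p.1 + w (b p).2 * p.2 = q.1 + w (b q).2 * q.2 := by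
          rw [← hvt p hp, ← hvt q hq, e2]
        have hlt' : w (b q).1 < w (b q).2 := hw (hb1 q)
        rw [f1] at g1
        rw [f2] at g2
        obtain ⟨d, hd⟩ := Nat.exists_eq_add_of_lt hlt'
        rw [hd] at g2
        have h1 : (d + 1) * p.2 = (d + 1) * q.2 := by nlinarith
        have h2 : p.2 = q.2 := Nat.eq_of_mul_eq_mul_left (by omega) h1
        refine Prod.ext ?_ h2
        rw [h2] at g1
        omega
    rw [card_product, card_range] at hcard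
    have h1 : ((w 3 * T + 1 : ℕ) : ℝ) * (A.card : ℝ) ≤ η * (Fintype.card (Fin 4 × Fin N) : ℝ) ^ 2 := by
      refine le_trans ?_ hG'3
      exact_mod_cast hcard
    rw [hV] at h1
    push_cast at h1
    rw [hNr] at h1
    have h2 : ((w 3 : ℝ) * T + 1) * (ε * T) ≤ ((w 3 : ℝ) * T + 1) * A.card :=
      mul_le_mul_of_nonneg_left hAc (by positivity)
    have h3 : η * (4 * (2 * w 3 * T + 1)) ^ 2 ≤ η * (4 * (3 * (w 3 * T))) ^ 2 := by
      refine mul_le_mul_of_nonneg_left (pow_le_pow_left₀ (by positivity) (by linarith) 2) hη0.le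
    have h4 : η * (4 * (3 * ((w 3 : ℝ) * T))) ^ 2 = (144 * (w 3 * η)) * (w 3 * T * T) := by ring
    have h5 : (144 * (w 3 * η)) * ((w 3 : ℝ) * T * T) < ε * (w 3 * T * T) := by
      refine mul_lt_mul_of_pos_right ?_ (by positivity)
      have : 0 < (w 3 : ℝ) * η := by positivity
      linarith
    have h6 : 0 < ε * T := by positivity
    nlinarith
  -- the count of the triples
  have hcnt : ((univ : Finset (Fin 4 → Fin 4 × Fin N)).filter
        (fun v => ∀ i j, i < j → (Gr A w N).Adj (v i) (v j))).card ≤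
      256 * N * ((range N ×ˢ range N ×ˢ range N).filter (Qd A w)).card := by
    have h1 : ((univ : Finset (Fin 4 → Fin 4 × Fin N)).filter
        (fun v => ∀ i j, i < j → (Gr A w N).Adj (v i) (v j))).card ≤
        ((univ : Finset (Fin 4 → Fin 4)) ×ˢ (range N) ×ˢ
          ((range N ×ˢ range N ×ˢ range N).filter (Qd A w))).card := by
      refine card_le_card_of_injOn Ph ?_ ?_
      · intro v hv
        rw [mem_coe, mem_filter] at hv
        have hcl : Cl A w N v := hv.2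
        obtain ⟨h1, h2, h3, h4⟩ := ph_qd hw hApos hcl
        have l0 := cl_lt hcl 0
        have l1 := cl_lt hcl 1
        have l2 := cl_lt hcl 2
        have l3 := cl_lt hcl 3
        rw [mem_coe, mem_product, mem_product, mem_filter, mem_product, mem_product, mem_range,
          mem_range, mem_range, mem_range]
        refine ⟨mem_univ _, l0, ⟨?_, ?_, ?_⟩, h1⟩
        · change zz v 1 - zz v 0 < N
          omega
        · change zz v 2 - zz v 0 < N
          omega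
        · change zz v 3 - zz v 0 < N
          omega
      · intro v hv u hu hvu
        rw [mem_coe, mem_filter] at hv hu
        exact ph_inj hw hApos hv.2 hu.2 hvu
    refine h1.trans (le_of_eq ?_)
    rw [card_product, card_product, card_univ, Fintype.card_fun, Fintype.card_fin, card_range]
    ring
  have hcnt' : c * (Fintype.card (Fin 4 × Fin N) : ℝ) ^ 4 ≤
      256 * N * (((range N ×ˢ range N ×ˢ range N).filter (Qd A w)).card : ℝ) := by
    refine hmany.trans ?_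
    exact_mod_cast hcnt
  rw [hV] at hcnt'
  push_cast at hcnt'
  have hNle : (N : ℝ) ≤ 3 * w 3 * T := by
    rw [hNr]
    linarith
  have hNge : 2 * (w 3 * T) ≤ (N : ℝ) := by
    rw [hNr]
    linarith
  have hx : (0 : ℝ) ≤ (((range N ×ˢ range N ×ˢ range N).filter (Qd A w)).card : ℝ) :=
    Nat.cast_nonneg _
  have h1 : c * (8 * (w 3 * T)) ^ 4 ≤ 256 * (3 * w 3 * T) *
      (((range N ×ˢ range N ×ˢ range N).filter (Qd A w)).card : ℝ) := by
    calc c * (8 * ((w 3 : ℝ) * T)) ^ 4 ≤ c * (4 * N) ^ 4 := by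
          refine mul_le_mul_of_nonneg_left (pow_le_pow_left₀ (by positivity) (by linarith) 4) hc.le
      _ ≤ _ := hcnt'
      _ ≤ _ := by
          refine mul_le_mul_of_nonneg_right ?_ hx
          linarith
  have h2 : c * (8 * (w 3 : ℝ)) ^ 4 / (256 * (3 * w 3)) * (T : ℝ) ^ 3 * (256 * (3 * w 3 * T)) =
      c * (8 * (w 3 * T)) ^ 4 := by
    field_simp
  have h3 : (0 : ℝ) < 256 * (3 * w 3 * T) := by positivity
  rw [← h2] at h1
  refine le_of_mul_le_mul_right ?_ h3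
  linarith

end Pool.Agent.H51.PM
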