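import Pool.Agent.H61.GD.Def
import Pool.Agent.H61.GD.Adj
import Pool.Agent.H61.GD.Two
import Pool.Agent.H51.PM.FourB

/-!
[H51 PM TWO]  THEOREM P4 for `L ≤ (log X)^A`: almost no `m ≤ L` (divisible by `t`) has all six `2 (w j - w i) m` unpopular.

Proof: copy of `H61/GD/Two.lean` (theorem `two`) with `box4` in place of `four_box`.  `s` from `main_B hU (1/1000) 4 1`, `K = 4 s - 2`.
By contradiction: `A0` = the bad `m ∈ [1, L]`, `A0.card > ε L`; `T = L`; the boxes `2 V`, `V` from `box4 .. ε s` with `A = A0`, sites `≤ 8 w 3 L =: M`;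
`D` = the unpopular even `h ≤ M` with a representation `h = 2 (w b - w a) m`, `m ∈ A0`, so `D.card ≤ 6 L`; every difference of two elements of
different cells is in `D`.  `main_B` with `M` in place of `4 T` and `L ↦ M` (`ev_two A T1 .. (8 w 3)`), `lam = lam1/(16 w 3)`; the constants: `c1` divided by a
constant depending on `w` only.
-/

namespace Pool.Agent.H51.PM

open Finset Filter Pool.Agent.H61.UN Pool.Agent.H61.UL Pool.Agent.H92.MM Pool.Agent.H61.GD

open Classical in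
theorem two4 (hU : BlkU) (w : Fin 4 → ℕ) (hw : StrictMono w) (hw0 : w 0 = 0) (t : ℕ) (ht : Ms w t) :
    ∃ K : ℕ, ∀ (cons : Bool) (ε A : ℝ), 0 < ε → 0 < A →
    ∃ (c lam : ℝ) (L0 X0 : ℕ), 0 < c ∧ 0 < lam ∧ ∀ X : ℕ, X0 ≤ X → ∀ L : ℕ, L0 ≤ L →
      (L : ℝ) ≤ Real.log X ^ A → (cons = true → (L : ℝ) ≤ lam * Real.log X) →
      (((Icc 1 L).filter (fun m => t ∣ m ∧ ∀ i j : Fin 4, i < j →
        (cq cons X (2 * ((w j - w i) * m)) : ℝ) <
          c * (min 1 ((L : ℝ) / Real.log X)) ^ K * (X / Real.log X ^ 2))).card : ℝ) ≤ ε * L := by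
  obtain ⟨s, hs, hmain⟩ := main_B hU (1 / 1000) (by norm_num) (by norm_num) 4 1 (by norm_num)
  refine ⟨4 * s - (1 + 1), fun cons ε A hε hA => ?_⟩
  obtain ⟨δ0, hδ0, T0, hbox⟩ := box4 w hw hw0 t ht ε hε s hs
  have hw3 : 1 ≤ w 3 := by
    have h1 := hw (show (0 : Fin 4) < 3 by decide)
    omega
  obtain ⟨S, hS⟩ : ∃ S : ℕ, S = 8 * w 3 := ⟨_, rfl⟩
  have hS8 : 8 ≤ S := by omega
  have hSr : (8 : ℝ) ≤ S := by exact_mod_cast hS8
  have hS0 : (0 : ℝ) < S := by linarith
  obtain ⟨δ, hδ⟩ : ∃ δ : ℝ, δ = δ0 / (S : ℝ) ^ (4 * s) := ⟨_, rfl⟩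
  have hδ' : 0 < δ := by
    rw [hδ]
    positivity
  obtain ⟨c1, T1, lam1, hc1, hT1, hlam1, hev⟩ := hmain (A + 1) δ (by linarith) hδ'
  have hx : Tendsto (fun X : ℕ => (X : ℝ) / (2 * T1)) atTop atTop :=
    (tendsto_natCast_atTop_atTop).atTop_div_const (by positivity)
  have hev1 := hx.eventually hev
  have hev2 := (tendsto_natCast_atTop_atTop (R := ℝ)).eventually (ev_two A T1 hA hT1 S)
  obtain ⟨X0, hX0⟩ := eventually_atTop.1 (hev1.and hev2)
  refine ⟨c1 / (8 * T1), lam1 / (2 * S), T0 + 1, max X0 1, by positivity, by positivity,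
    fun X hX L hL hLA hcons => ?_⟩
  obtain ⟨hE1, hE2⟩ := hX0 X ((le_max_left _ _).trans hX)
  have hXpos : (0 : ℝ) < X := by
    have : 1 ≤ X := (le_max_right _ _).trans hX
    exact_mod_cast this
  obtain ⟨hq1, hq2, hq3, hq4, hq5⟩ := hE2 L (Nat.cast_nonneg _) hLA
  obtain ⟨x, hxd⟩ : ∃ x : ℝ, x = (X : ℝ) / (2 * T1) := ⟨_, rfl⟩
  rw [← hxd] at hE1 hq1 hq2 hq3 hq4
  by_contra hcon
  push Not at hcon
  obtain ⟨thr, hthr⟩ : ∃ thr : ℝ, thr = c1 / (8 * T1) *
    (min 1 ((L : ℝ) / Real.log X)) ^ (4 * s - (1 + 1)) * (X / Real.log X ^ 2) := ⟨_, rfl⟩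
  rw [← hthr] at hcon
  have hT0 : T0 ≤ L := by omega
  have hL1 : 1 ≤ L := by omega
  obtain ⟨A0, hA0⟩ : ∃ A0 : Finset ℕ, A0 = (Icc 1 L).filter (fun m => t ∣ m ∧ ∀ i j : Fin 4, i < j →
    (cq cons X (2 * ((w j - w i) * m)) : ℝ) < thr) := ⟨_, rfl⟩
  rw [← hA0] at hcon
  have hB := hbox L hT0 A0 (by rw [hA0]; exact filter_subset _ _) (by
    intro m hm
    rw [hA0, mem_filter] at hm
    exact hm.2.1) hcon.le
  obtain ⟨VV, hVV⟩ : ∃ VV : Finset (Fin 4 → Fin s → Fin (4 * w 3 * L + 1)), VV =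
      univ.filter (fun V : Fin 4 → Fin s → Fin (4 * w 3 * L + 1) =>
        (∀ i j i' j', V i j = V i' j' → i = i' ∧ j = j') ∧
        (∀ p : ℕ, p.Prime → ∃ a : ℕ, ∀ i j, ¬ p ∣ a + 2 * (V i j : ℕ)) ∧
        ∀ i j i' j', i ≠ i' → (V i j : ℕ) < V i' j' → ∃ a b : Fin 4, a < b ∧
          Mu A0 (w b - w a) ((V i' j' : ℕ) - V i j)) := ⟨_, rfl⟩
  rw [← hVV] at hB
  obtain ⟨BB, hBB⟩ : ∃ BB : Finset (Fin 4 × Fin s → ℕ),
      BB = VV.image (fun V q => 2 * (V q.1 q.2 : ℕ)) := ⟨_, rfl⟩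
  have hBBcard : BB.card = VV.card := by
    rw [hBB]
    apply card_image_of_injective
    intro V V' h
    funext i j
    have h1 := congrFun h (i, j)
    simp only at h1
    exact Fin.ext (by omega)
  obtain ⟨M, hM⟩ : ∃ M : ℕ, M = S * L := ⟨_, rfl⟩
  have hM2 : M = 2 * (4 * w 3 * L) := by
    rw [hM, hS]
    ring
  obtain ⟨D, hD⟩ : ∃ D : Finset ℕ, D = ((univ ×ˢ univ ×ˢ A0 : Finset (Fin 4 × Fin 4 × ℕ)).filter
      (fun q => q.1 < q.2.1)).image (fun q => 2 * ((w q.2.1 - w q.1) * q.2.2)) := ⟨_, rfl⟩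
  have hA0card : A0.card ≤ L := by
    rw [hA0]
    refine (card_filter_le _ _).trans ?_
    simp
  have hDcard : D.card ≤ 16 * L := by
    rw [hD]
    refine card_image_le.trans ((card_filter_le _ _).trans ?_)
    rw [card_product, card_product, card_univ, Fintype.card_fin]
    omega
  have hDthr : ∀ h ∈ D, (cq cons X h : ℝ) < thr := by
    intro h hh
    rw [hD, mem_image] at hh
    obtain ⟨q, hq, rfl⟩ := hh
    rw [mem_filter, mem_product, mem_product] at hq
    have h1 := hq.1.2.2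
    rw [hA0, mem_filter] at h1
    exact h1.2.2 _ _ hq.2
  have hdata : ∀ v ∈ BB, ∃ V ∈ VV, ∀ q, v q = 2 * (V q.1 q.2 : ℕ) := by
    intro v hv
    rw [hBB, mem_image] at hv
    obtain ⟨V, hV, rfl⟩ := hv
    exact ⟨V, hV, fun q => rfl⟩
  have hle : ∀ v ∈ BB, ∀ q, v q ≤ M := by
    intro v hv q
    obtain ⟨V, -, h⟩ := hdata v hv
    rw [h, hM2]
    have := (V q.1 q.2).isLt
    omega
  have hinj : ∀ v ∈ BB, Function.Injective v := by
    intro v hv q q' hqq
    obtain ⟨V, hV, h⟩ := hdata v hv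
    rw [hVV, mem_filter] at hV
    rw [h, h] at hqq
    have h1 : V q.1 q.2 = V q'.1 q'.2 := Fin.ext (by omega)
    have h2 := hV.2.1 _ _ _ _ h1
    exact Prod.ext h2.1 h2.2
  have hM1 : 1 ≤ M := by
    rw [hM]
    exact Nat.mul_pos (by omega) hL1
  have hMr : (M : ℝ) = S * L := by
    rw [hM]
    push_cast
    ring
  have key := hE1 M hM1 (by rw [hMr]; exact hq1) (cons = true) (by
      intro hc
      have h1 := hcons hc
      have h3 : (S : ℝ) * L ≤ S * (lam1 / (2 * S) * Real.log X) :=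
        mul_le_mul_of_nonneg_left h1 hS0.le
      have h4 : (S : ℝ) * (lam1 / (2 * S) * Real.log X) = lam1 / 2 * Real.log X := by
        field_simp
      have h5 : lam1 / 2 * Real.log X ≤ lam1 / 2 * (2 * Real.log x) :=
        mul_le_mul_of_nonneg_left hq2 (by positivity)
      rw [hMr]
      linarith) BB (by
      intro v hv
      refine ⟨mem_IJ.2 ⟨hle v hv, hinj v hv⟩, ?_⟩
      intro p hp
      obtain ⟨V, hV, h⟩ := hdata v hv
      rw [hVV, mem_filter] at hV
      obtain ⟨a, ha⟩ := hV.2.2.1 p hp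
      exact ⟨a, fun q => by rw [h]; exact ha q.1 q.2⟩) (by
      rw [hBBcard]
      refine le_trans (le_of_eq ?_) hB
      rw [hδ, hMr, mul_pow]
      field_simp) (GP cons M D) (by
      intro N _ r hr i
      rw [mem_GP] at hr
      fin_cases i
      · exact ⟨hr.1.1, hr.2.2.2.1⟩
      · exact ⟨hr.1.2, hr.2.2.2.2.1⟩) (by
      intro v hv N _ hpc hcn
      have hpc2 : 2 ≤ pc v N := by
        by_contra h
        push Not at h
        have h1 : (pc v N : ℝ) ≤ 1 := by
          have : pc v N ≤ 1 := by omega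
          exact_mod_cast this
        norm_num at hpc
        linarith
      obtain ⟨i, j, hij, hlt, hpi, hpj, hadj⟩ := adj v (hinj v hv) N hpc2
      refine ⟨![i, j], ?_, ?_⟩
      · intro a b hab
        fin_cases a <;> fin_cases b
        · rfl
        · simp at hab
          rw [hab] at hij
          exact absurd rfl hij
        · simp at hab
          rw [hab] at hij
          exact absurd rfl hij
        · rfl
      · rw [mem_GP]
        obtain ⟨V, hV, h⟩ := hdata v hv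
        rw [hVV, mem_filter] at hV
        obtain ⟨a, b, hab, m, hmA, hm⟩ := hV.2.2.2 i.1 i.2 j.1 j.2 hij (by
          have := hlt
          rw [h, h] at this
          omega)
        have h2 : v j - v i = 2 * ((V j.1 j.2 : ℕ) - V i.1 i.2) := by
          rw [h, h]
          omega
        simp only [Function.comp, Matrix.cons_val_zero, Matrix.cons_val_one]
        refine ⟨⟨hle v hv i, hle v hv j⟩, hlt, ?_, hpi, hpj, ?_⟩
        · rw [hD, mem_image]
          refine ⟨(a, b, m), ?_, ?_⟩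
          · rw [mem_filter, mem_product, mem_product]
            exact ⟨⟨mem_univ _, mem_univ _, hmA⟩, hab⟩
          · rw [h2, hm]
        · intro hc t' ht1 ht2 htp
          obtain ⟨l, hl⟩ := hcn hc (t' - N) (by
            have := hle v hv j
            omega) (by
            have e : N + (t' - N) = t' := by omega
            rw [e]
            exact htp)
          have e : N + v l = t' := by omega
          apply hadj l (by omega) (by omega)
          rw [e]
          exact htp)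
  -- upper bound
  have hMX : (M : ℝ) ≤ X / 2 := by rw [hMr]; exact hq5
  have hTx0 : ∀ N ∈ (Tx x).filter (fun N : ℕ => (N : ℝ) ≤ T1 * x), 1 ≤ N ∧ N ≤ X - M := by
    intro N hN
    rw [mem_filter, Tx, mem_Ioc] at hN
    have h1 : T1 * x = X / 2 := by
      rw [hxd]
      have : T1 ≠ 0 := by positivity
      field_simp
    have h2 : (N : ℝ) ≤ X / 2 := by rw [← h1]; exact hN.2
    have h4 : ((N + M : ℕ) : ℝ) ≤ X := by
      push_cast
      linarith
    have h5 : N + M ≤ X := by exact_mod_cast h4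
    omega
  have hup := sum_GP cons M D _ (X - M) hTx0
  have hX4 : X - M + M = X := by
    have h4 : (M : ℝ) ≤ X := by linarith
    have h5 : M ≤ X := by exact_mod_cast h4
    omega
  rw [hX4] at hup
  have hthr0 : 0 ≤ thr := by
    rw [hthr]
    have : 0 ≤ min 1 ((L : ℝ) / Real.log X) := le_min zero_le_one (by
      have : 0 < Real.log X := by linarith
      positivity)
    positivity
  have hup2 : ((∑ N ∈ (Tx x).filter (fun N : ℕ => (N : ℝ) ≤ T1 * x),
      (GP cons M D N).card : ℕ) : ℝ) ≤ (M + 1) * (16 * L * thr) := by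
    have h1 : ((∑ N ∈ (Tx x).filter (fun N : ℕ => (N : ℝ) ≤ T1 * x),
        (GP cons M D N).card : ℕ) : ℝ) ≤ ((M + 1) * ∑ h ∈ D, cq cons X h : ℕ) := by
      exact_mod_cast hup
    refine h1.trans ?_
    push_cast
    apply mul_le_mul_of_nonneg_left _ (by positivity)
    calc ∑ h ∈ D, (cq cons X h : ℝ) ≤ ∑ _h ∈ D, thr := sum_le_sum fun h hh => (hDthr h hh).le
      _ = D.card * thr := by rw [sum_const, nsmul_eq_mul]
      _ ≤ 16 * L * thr := mul_le_mul_of_nonneg_right (by exact_mod_cast hDcard) hthr0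
  push_cast at hup2 key
  have hkey2 := key.trans hup2
  have hlX : 0 < Real.log X := by linarith
  have hLr : (1 : ℝ) ≤ L := by exact_mod_cast hL1
  have hLpos : (0 : ℝ) < L := by linarith
  obtain ⟨R, hR⟩ : ∃ R : ℝ, R = (min 1 ((L : ℝ) / Real.log X)) ^ (4 * s - (1 + 1)) := ⟨_, rfl⟩
  have hR0 : 0 < R := by
    rw [hR]
    have : 0 < min 1 ((L : ℝ) / Real.log X) := lt_min one_pos (by positivity)
    positivity
  have hLM : (L : ℝ) ≤ M := by
    rw [hMr]
    nlinarith
  have hmono : (L : ℝ) / Real.log X ≤ M / Real.log x := by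
    rw [div_le_div_iff₀ hlX hq3]
    exact mul_le_mul hLM hq4 hq3.le (by positivity)
  have h1 : R ≤ (min 1 ((M : ℝ) / Real.log x)) ^ (4 * s - (1 + 1)) := by
    rw [hR]
    apply pow_le_pow_left₀ (le_min zero_le_one (by positivity))
    exact min_le_min le_rfl hmono
  have h2 : ((M : ℝ) / Real.log X) ^ 2 ≤ ((M : ℝ) / Real.log x) ^ (1 + 1) := by
    apply pow_le_pow_left₀ (by positivity)
    exact div_le_div_of_nonneg_left (by positivity) hq3 hq4
  have hx0 : 0 ≤ x := by
    rw [hxd]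
    positivity
  have h3 : c1 * x * ((M : ℝ) / Real.log X) ^ 2 * R ≤
      c1 * x * ((M : ℝ) / Real.log x) ^ (1 + 1) *
        (min 1 ((M : ℝ) / Real.log x)) ^ (4 * s - (1 + 1)) := by
    apply mul_le_mul _ h1 hR0.le (by positivity)
    exact mul_le_mul_of_nonneg_left h2 (by positivity)
  have h4 := h3.trans hkey2
  rw [hthr, ← hR, hxd] at h4
  have h5 : c1 * ((X : ℝ) / (2 * T1)) * ((M : ℝ) / Real.log X) ^ 2 * R =
      (4 * (M : ℝ) ^ 2) * (c1 / (8 * T1) * R * (X / Real.log X ^ 2)) := by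
    have e1 : T1 ≠ 0 := by positivity
    have e2 : Real.log X ≠ 0 := hlX.ne'
    field_simp
    ring
  have h6 : ((M : ℝ) + 1) * (16 * L * (c1 / (8 * T1) * R * (X / Real.log X ^ 2))) =
      ((M + 1) * (16 * L)) * (c1 / (8 * T1) * R * (X / Real.log X ^ 2)) := by ring
  rw [h5, h6] at h4
  have h7 : 0 < c1 / (8 * T1) * R * (X / Real.log X ^ 2) := by positivity
  have h8 := le_of_mul_le_mul_right h4 h7
  rw [hMr] at h8
  have h9 : (8 : ℝ) * L ≤ S * L := mul_le_mul_of_nonneg_right hSr hLpos.le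
  nlinarith

end Pool.Agent.H51.PM
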